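import Pool.Agent.T5X.A2
import Pool.Agent.E8X.M3

/-!
# [T5X-A3] `Δ = X E^24`, `J = X E(X⁸)³`, and the dissection `E = ε(X⁵) (1 - t - t²)`
-/

set_option autoImplicit false

open scoped Real
open PowerSeries
open N19 (ex)
open NC11 (D Ev qq)
open E8X (Sg Dl F3Cl J)

namespace T5X

section general

variable {K : Type*} [CommRing K]

theorem Dg_mul (f g : PowerSeries K) : D (f * g) = D f * g + f * D g := by
  ext n
  simp only [D, coeff_mk, map_add, coeff_mul]
  rw [Finset.mul_sum, ← Finset.sum_add_distrib]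
  refine Finset.sum_congr rfl fun p hp => ?_
  rw [← Finset.HasAntidiagonal.mem_antidiagonal.1 hp]
  push_cast
  ring

theorem Dg_one : D (1 : PowerSeries K) = 0 := by
  ext n
  simp only [D, coeff_mk, coeff_one, map_zero]
  split_ifs with h
  · rw [h]
    simp
  · simp

theorem Dg_pow (f : PowerSeries K) (k : ℕ) : D (f ^ (k + 1)) = ((k : PowerSeries K) + 1) * f ^ k * D f := by
  induction k with
  | zero => simp
  | succ k ih =>
    rw [pow_succ, Dg_mul, ih]
    push_cast
    ring

theorem log_zero [IsDomain K] [CharZero K] {a u : PowerSeries K} (h : D u = a * u)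
    (hc : ∀ n : ℕ, (n : K) = coeff 0 a → coeff n u = 0) : u = 0 := by
  ext n
  induction n using Nat.strong_induction_on with
  | _ n ih =>
    by_cases hn : (n : K) = coeff 0 a
    · rw [hc n hn, map_zero]
    · have h1 := congrArg (coeff n) h
      rw [D, coeff_mk, coeff_mul, Finset.sum_eq_single (0, n)] at h1
      · simp only at h1
        have h2 : ((n : K) - coeff 0 a) * coeff n u = 0 := by linear_combination h1
        rcases mul_eq_zero.1 h2 with h3 | h3
        · exact absurd (sub_eq_zero.1 h3) hn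
        · rw [h3, map_zero]
      · intro p hp hne
        rw [Finset.HasAntidiagonal.mem_antidiagonal] at hp
        have h3 : p.2 < n := by
          rcases Nat.eq_zero_or_pos p.1 with h4 | h4
          · exfalso
            apply hne
            rw [h4, zero_add] at hp
            exact Prod.ext h4 hp
          · omega
        rw [ih p.2 h3, map_zero, mul_zero]
      · intro h3
        exfalso
        apply h3
        simp

end general

theorem D_Dl : D Dl = P * Dl := by
  have h1 := E8X.Dl_ev.deriv.sub (P_ev.mul E8X.Dl_ev)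
  have h2 : D Dl - P * Dl = 0 := by
    apply h1.unique (Y := 0)
    intro z hz _
    have hne : ModularForm.eta z ≠ 0 := ModularForm.eta_ne_zero hz
    have hlog := ModularForm.logDeriv_eta_eq_E2 ⟨z, hz⟩
    have hE : e2 z = EisensteinSeries.E2 ⟨z, hz⟩ := by
      rw [e2, dif_pos hz]
    rw [← hE] at hlog
    have hd : deriv ModularForm.eta z = (π * Complex.I / 12) * e2 z * ModularForm.eta z := by
      have h3 : deriv ModularForm.eta z / ModularForm.eta z = (π * Complex.I / 12) * e2 z := hlog
      rw [← h3]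
      field_simp
    have hd2 : deriv (fun w => ModularForm.eta w ^ 24) z = 24 * ModularForm.eta z ^ 23 * deriv ModularForm.eta z := by
      have h3 := ((ModularForm.differentiableAt_eta_of_mem_upperHalfPlaneSet hz).hasDerivAt.pow 24).deriv
      have h4 : deriv (ModularForm.eta ^ 24) z = deriv (fun w => ModularForm.eta w ^ 24) z := rfl
      rw [← h4, h3]
      push_cast
      ring
    rw [hd2, hd]
    have hpi : (π : ℂ) ≠ 0 := by exact_mod_cast Real.pi_ne_zero
    field_simp
    ring
  linear_combination h2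

theorem Dl_eq : Dl = X * E ^ 24 := by
  have h1 : D (X * E ^ 24) = P * (X * E ^ 24) := by
    have hX : D (X : PowerSeries ℤ) = X := by
      ext n
      simp only [D, coeff_mk, coeff_X]
      split_ifs with h
      · rw [h]
        simp
      · simp
    rw [Dg_mul, hX, show (24 : ℕ) = 23 + 1 from rfl, Dg_pow, D_E, P]
    push_cast
    ring
  have h2 : D (Dl - X * E ^ 24) = P * (Dl - X * E ^ 24) := by
    have h3 : Dl = (Dl - X * E ^ 24) + X * E ^ 24 := by ring
    have h4 : D Dl = D (Dl - X * E ^ 24) + D (X * E ^ 24) := by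
      rw [← E8T.D_add, ← h3]
    rw [D_Dl, h1] at h4
    linear_combination -h4
  have h3 := log_zero h2 (by
    intro n hn
    have hP : coeff 0 P = 1 := by
      rw [P, show (24 : PowerSeries ℤ) = C 24 from rfl, map_sub, coeff_C_mul, E8X.coeff_zero_Sg]
      simp
    rw [hP] at hn
    have hn1 : n = 1 := by exact_mod_cast hn
    subst hn1
    rw [map_sub, E8X.coeff_one_Dl, show (1 : ℕ) = 0 + 1 from rfl, coeff_succ_X_mul,
      coeff_zero_eq_constantCoeff_apply, map_pow, E_zero]
    norm_num)
  linear_combination h3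

theorem pow8 {f g : PowerSeries ℤ} (hf : constantCoeff f = 1) (hg : constantCoeff g = 1)
    (h : f ^ 8 = g ^ 8) : f = g := by
  have h1 : (f - g) * ((f + g) * ((f ^ 2 + g ^ 2) * (f ^ 4 + g ^ 4))) = 0 := by
    linear_combination h
  have key : ∀ u : PowerSeries ℤ, constantCoeff u = 2 → u ≠ 0 := by
    rintro u hu rfl
    rw [map_zero] at hu
    norm_num at hu
  rcases mul_eq_zero.1 h1 with h2 | h2
  · exact sub_eq_zero.1 h2
  · exfalso
    rcases mul_eq_zero.1 h2 with h3 | h3
    · exact key _ (by rw [map_add, hf, hg]; norm_num) h3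
    · rcases mul_eq_zero.1 h3 with h4 | h4
      · exact key _ (by rw [map_add, map_pow, map_pow, hf, hg]; norm_num) h4
      · exact key _ (by rw [map_add, map_pow, map_pow, hf, hg]; norm_num) h4

theorem J_eq : J = X * ex 8 (E ^ 3) := by
  have h0 : coeff 0 J = 0 := E8X.m3_coeff_zero (n := 0) (by
    intro j hj
    have : 0 < (2 * j + 1) ^ 2 := by positivity
    omega)
  have h1 : coeff 1 J = 1 := by
    have := E8X.m3_coeff 0
    simpa using this
  obtain ⟨j, hj⟩ : (X : PowerSeries ℤ) ∣ J := by
    rw [PowerSeries.X_dvd_iff, ← coeff_zero_eq_constantCoeff_apply, h0]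
  have h2 : constantCoeff j = 1 := by
    rw [hj, show (1 : ℕ) = 0 + 1 from rfl, coeff_succ_X_mul, coeff_zero_eq_constantCoeff_apply] at h1
    exact h1
  have h3 : constantCoeff (ex 8 (E ^ 3)) = 1 := by
    rw [← coeff_zero_eq_constantCoeff_apply, E8X.f3_coeff_ex, if_pos (dvd_zero _)]
    simp [E_zero]
  have h4 := E8X.J_pow
  rw [Dl_eq, hj, mul_pow, E8X.ex_mul (by norm_num), E8X.ex_X (by norm_num),
    show E ^ 24 = (E ^ 3) ^ 8 by ring, E8X.ex_pow (by norm_num)] at h4
  have h5 : j ^ 8 = ex 8 (E ^ 3) ^ 8 := mul_left_cancel₀ (pow_ne_zero 8 X_ne_zero) h4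
  rw [hj, pow8 h2 h3 h5]

theorem coeff_E3 (n : ℕ) : coeff n (E ^ 3) = coeff (8 * n + 1) J := by
  rw [J_eq, coeff_succ_X_mul, E8X.f3_coeff_ex, if_pos (dvd_mul_right _ _), Nat.mul_div_cancel_left n (by norm_num)]

theorem E3_two {n : ℕ} (hn : n % 5 = 2) : coeff n (E ^ 3) = 0 := by
  rw [coeff_E3]
  refine E8X.m3_coeff_zero fun j hj => ?_
  have h1 : (2 * j + 1) ^ 2 % 5 = (8 * n + 1) % 5 := by rw [hj]
  have h2 : (8 * n + 1) % 5 = 2 := by omega
  rw [h2, Nat.pow_mod] at h1
  have h3 : (2 * j + 1) % 5 < 5 := Nat.mod_lt _ (by norm_num)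
  interval_cases (2 * j + 1) % 5 <;> omega

end T5X
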