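import Pool.Agent.T5X.A3

/-!
# [T5X-A4] the dissection `E = ε(X⁵) (1 - t - t²)`
-/

set_option autoImplicit false

open PowerSeries
open N19 (ex)
open NC11 (D)
open E8X (Sg Dl F3Cl J)

namespace T5X

theorem pent_sq (k : ℤ) : 24 * (pentagonal k : ℤ) + 1 = (6 * k - 1) ^ 2 := by
  have h := two_mul_natCast_pentagonal k
  linear_combination 12 * h

theorem E_coeff_zero {n : ℕ} (h : ∀ k : ℤ, pentagonal k ≠ n) : coeff n E = 0 :=
  coeff_pentagonalSeries_eq_zero ℤ (by rintro ⟨k, hk⟩; exact h k hk)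

theorem E_coeff (k : ℤ) : coeff (pentagonal k) E = ((Int.negOnePow k : ℤˣ) : ℤ) :=
  coeff_pentagonalSeries_pentagonal ℤ k

theorem pent_mod (k : ℤ) : (24 * (pentagonal k : ℤ) + 1) % 5 = 0 ∨ (24 * (pentagonal k : ℤ) + 1) % 5 = 1 ∨
    (24 * (pentagonal k : ℤ) + 1) % 5 = 4 := by
  rw [pent_sq, pow_two, Int.mul_emod]
  have h1 : 0 ≤ (6 * k - 1) % 5 := Int.emod_nonneg _ (by norm_num)
  have h2 : (6 * k - 1) % 5 < 5 := Int.emod_lt_of_pos _ (by norm_num)
  interval_cases (6 * k - 1) % 5 <;> simp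

theorem E_three {n : ℕ} (hn : n % 5 = 3 ∨ n % 5 = 4) : coeff n E = 0 := by
  refine E_coeff_zero fun k hk => ?_
  have h := pent_mod k
  rw [hk] at h
  omega

theorem E_one (m : ℕ) : coeff (5 * m + 1) E = - coeff (5 * m) (ex 25 E) := by
  rw [E8X.f3_coeff_ex]
  by_cases h : ∃ k : ℤ, pentagonal k = 5 * m + 1
  · obtain ⟨k, hk⟩ := h
    have h1 := pent_sq k
    rw [hk] at h1
    push_cast at h1
    have h5 : (5 : ℤ) ∣ (6 * k - 1) := by
      have : (5 : ℤ) ∣ (6 * k - 1) ^ 2 := ⟨24 * m + 5, by rw [← h1]; ring⟩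
      exact Int.Prime.dvd_pow' (by norm_num) this
    obtain ⟨j, rfl⟩ : ∃ j : ℤ, k = 5 * j + 1 := ⟨(k - 1) / 5, by omega⟩
    have h2 := two_mul_natCast_pentagonal (5 * j + 1)
    rw [hk] at h2
    have h3 := two_mul_natCast_pentagonal (-j)
    have h4 : (m : ℤ) = 5 * (pentagonal (-j) : ℤ) := by
      push_cast at h2
      have : (10 : ℤ) * (m : ℤ) = 10 * (5 * (pentagonal (-j) : ℤ)) := by
        linear_combination h2 - 25 * h3
      exact mul_left_cancel₀ (by norm_num) this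
    have h5' : m = 5 * pentagonal (-j) := by exact_mod_cast h4
    rw [← hk, E_coeff, h5', if_pos ⟨pentagonal (-j), by ring⟩]
    have h6 : 5 * (5 * pentagonal (-j)) / 25 = pentagonal (-j) := by omega
    rw [h6, E_coeff, Int.negOnePow_succ, Int.negOnePow_neg]
    have h7 : Int.negOnePow (5 * j) = Int.negOnePow j := by
      rw [show (5 * j : ℤ) = 2 * (2 * j) + j by ring, Int.negOnePow_add, Int.negOnePow_two_mul, one_mul]
    rw [h7]
    simp
  · have h0 : coeff (5 * m + 1) E = 0 := E_coeff_zero fun k hk => h ⟨k, hk⟩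
    rw [h0]
    split_ifs with hd
    · rw [E_coeff_zero, neg_zero]
      intro j hj
      apply h
      refine ⟨-5 * j + 1, ?_⟩
      obtain ⟨c, hc⟩ := hd
      have h1 : 5 * m / 25 = c := by omega
      have h2 : m = 5 * c := by omega
      rw [h1] at hj
      have h3 := two_mul_natCast_pentagonal (-5 * j + 1)
      have h4 := two_mul_natCast_pentagonal j
      have h5 : ((pentagonal (-5 * j + 1) : ℕ) : ℤ) = 25 * (pentagonal j : ℤ) + 1 := by
        have : (2 : ℤ) * (pentagonal (-5 * j + 1) : ℤ) = 2 * (25 * (pentagonal j : ℤ) + 1) := by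
          linear_combination h3 - 25 * h4
        exact mul_left_cancel₀ (by norm_num) this
      have h6 : pentagonal (-5 * j + 1) = 25 * pentagonal j + 1 := by exact_mod_cast h5
      rw [h6, hj, h2]
      ring
    · simp

/-- the part of `E` with exponents `2` modulo `5` -/
noncomputable def Ec : PowerSeries ℤ := mk fun n => if n % 5 = 2 then coeff n E else 0

theorem ex_eps (n : ℕ) : coeff n (ex 5 eps) = if n % 5 = 0 then coeff n E else 0 := by
  rw [E8X.f3_coeff_ex]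
  by_cases h : n % 5 = 0
  · rw [if_pos (Nat.dvd_of_mod_eq_zero h), if_pos h, eps, coeff_mk,
      Nat.mul_div_cancel' (Nat.dvd_of_mod_eq_zero h)]
  · rw [if_neg (fun hd => h (Nat.mod_eq_zero_of_dvd hd)), if_neg h]

theorem X_ex (n : ℕ) : coeff n (X * ex 25 E) = if n % 5 = 1 then - coeff n E else 0 := by
  rcases Nat.eq_zero_or_pos n with rfl | hn
  · simp
  · obtain ⟨k, rfl⟩ : ∃ k, n = k + 1 := ⟨n - 1, by omega⟩
    rw [coeff_succ_X_mul]
    by_cases h : (k + 1) % 5 = 1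
    · obtain ⟨m, rfl⟩ : ∃ m, k = 5 * m := ⟨k / 5, by omega⟩
      rw [if_pos h, E_one]
      ring
    · rw [if_neg h, E8X.f3_coeff_ex, if_neg]
      rintro ⟨c, rfl⟩
      omega

theorem E_split : E = ex 5 eps - X * ex 25 E + Ec := by
  ext n
  rw [map_add, map_sub, ex_eps, X_ex, Ec, coeff_mk]
  have h : n % 5 = 0 ∨ n % 5 = 1 ∨ n % 5 = 2 ∨ (n % 5 = 3 ∨ n % 5 = 4) := by omega
  rcases h with h | h | h | h
  · simp [h]
  · simp [h]
  · simp [h]
  · rw [E_three h]
    rcases h with h | h <;> simp [h]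

theorem cl_e0 : F3Cl 5 0 (ex 5 eps) := E8X.f3_ex dvd_rfl eps

theorem cl_ex5 (f : PowerSeries ℤ) : F3Cl 5 0 (ex 5 f) := E8X.f3_ex dvd_rfl f

theorem cl_ex25 (f : PowerSeries ℤ) : F3Cl 5 0 (ex 25 f) := E8X.f3_ex ⟨5, rfl⟩ f

theorem cl_e1 : F3Cl 5 1 (X * ex 25 E) := by
  have h := (E8X.f3_X 5 1).mul (cl_ex25 E)
  rw [pow_one] at h
  exact h

theorem cl_Ec : F3Cl 5 2 Ec := by
  intro n hn
  rw [Ec, coeff_mk, if_neg hn]

theorem cl_neg {M i : ℕ} {f : PowerSeries ℤ} (hf : F3Cl M i f) : F3Cl M i (-f) := by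
  intro n hn
  rw [map_neg, hf n hn, neg_zero]

theorem eps_zero : constantCoeff eps = 1 := by
  rw [← coeff_zero_eq_constantCoeff_apply, eps, coeff_mk, mul_zero, coeff_zero_eq_constantCoeff_apply, E_zero]

theorem ex_zero {k : ℕ} {f : PowerSeries ℤ} (h : constantCoeff f = 1) : constantCoeff (ex k f) = 1 := by
  rw [← coeff_zero_eq_constantCoeff_apply, E8X.f3_coeff_ex, if_pos (dvd_zero _), Nat.zero_div,
    coeff_zero_eq_constantCoeff_apply, h]

theorem ne_zero_of_one {f : PowerSeries ℤ} (h : constantCoeff f = 1) : f ≠ 0 := by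
  rintro rfl
  rw [map_zero] at h
  norm_num at h

/-- Jacobi: `E³` has no exponents `2` modulo `5` -/
theorem Ec_eq : ex 5 eps * Ec = - (X * ex 25 E) ^ 2 := by
  obtain ⟨a, ha⟩ : ∃ a, a = ex 5 eps := ⟨_, rfl⟩
  obtain ⟨b, hb⟩ : ∃ b, b = - (X * ex 25 E) := ⟨_, rfl⟩
  have ca : F3Cl 5 0 a := by rw [ha]; exact cl_e0
  have cb : F3Cl 5 1 b := by rw [hb]; exact cl_neg cl_e1
  have cc := cl_Ec
  have hE : E = a + b + Ec := by
    rw [ha, hb]
    exact E_split.trans (by ring)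
  have h1 : a * b ^ 2 + a ^ 2 * Ec = 0 := by
    ext n
    rw [map_zero]
    by_cases hn : n % 5 = 2
    · have h2 := E3_two hn
      have h3 : E ^ 3 = a * (a * a) + ((a * (a * b)) + (a * (a * b)) + (a * (a * b))) + (b * (b * b)) +
          ((a * (b * Ec)) + (a * (b * Ec)) + (a * (b * Ec)) + (a * (b * Ec)) + (a * (b * Ec)) + (a * (b * Ec))) +
          ((b * (b * Ec)) + (b * (b * Ec)) + (b * (b * Ec))) + ((a * (Ec * Ec)) + (a * (Ec * Ec)) + (a * (Ec * Ec))) +
          ((b * (Ec * Ec)) + (b * (Ec * Ec)) + (b * (Ec * Ec))) + (Ec * (Ec * Ec)) +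
          ((a * b ^ 2 + a ^ 2 * Ec) + (a * b ^ 2 + a ^ 2 * Ec) + (a * b ^ 2 + a ^ 2 * Ec)) := by
        rw [hE]
        ring
      rw [h3] at h2
      simp only [map_add (coeff n)] at h2
      rw [(ca.mul (ca.mul ca)) n (by omega), (ca.mul (ca.mul cb)) n (by omega), (cb.mul (cb.mul cb)) n (by omega),
        (ca.mul (cb.mul cc)) n (by omega), (cb.mul (cb.mul cc)) n (by omega), (ca.mul (cc.mul cc)) n (by omega),
        (cb.mul (cc.mul cc)) n (by omega), (cc.mul (cc.mul cc)) n (by omega)] at h2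
      rw [map_add]
      linarith
    · have c1 : F3Cl 5 2 (a * b ^ 2) := (ca.mul (cb.pow 2)).congr (by norm_num)
      have c2 : F3Cl 5 2 (a ^ 2 * Ec) := ((ca.pow 2).mul cc).congr (by norm_num)
      exact (c1.add c2) n (by omega)
  have h2 : a * (b ^ 2 + a * Ec) = 0 := by linear_combination h1
  have ha0 : a ≠ 0 := by
    rw [ha]
    exact ne_zero_of_one (ex_zero eps_zero)
  rcases mul_eq_zero.1 h2 with h3 | h3
  · exact absurd h3 ha0
  · rw [← ha]
    rw [hb] at h3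
    linear_combination h3

theorem e0_iv : ex 5 eps * iv (ex 5 eps) = 1 := iv_mul (ex_zero eps_zero)

theorem t_mul : t * ex 5 eps = X * ex 25 E := by
  rw [t]
  linear_combination (X * ex 25 E) * e0_iv

/-- the 5-dissection of `E` -/
theorem E_eq : E = ex 5 eps * (1 - t - t ^ 2) := by
  have h1 := Ec_eq
  have h2 := E_split
  rw [← t_mul] at h1 h2
  have h3 : ex 5 eps * Ec = ex 5 eps * (- t ^ 2 * ex 5 eps) := by
    rw [h1]
    ring
  have h4 : Ec = - t ^ 2 * ex 5 eps := mul_left_cancel₀ (ne_zero_of_one (ex_zero eps_zero)) h3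
  rw [h4] at h2
  rw [h2]
  ring

end T5X
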