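import Pool.Agent.T5X.B7

/-!
# [T5X-B8] Ramanujan's congruence modulo 691
-/

set_option autoImplicit false

open PowerSeries
open N19 (ex)
open NC11 (D Ev)
open E8X (Sg Dl F3Cl J tau)

namespace T5X

/-- `432000 τ(n) + 65520 σ₁₁(n) = 691 [X^n] E₄³` -/
theorem tau_691' {n : ℕ} (hn : n ≠ 0) : 432000 * tau n + 65520 * (ArithmeticFunction.sigma 11 n : ℤ) =
    691 * coeff n ((1 + 240 * Sg 3) ^ 3) := by
  have h := congrArg (coeff n) E8X.S11_eq
  rw [show (691 : PowerSeries ℤ) = C 691 from rfl, show (65520 : PowerSeries ℤ) = C 65520 from rfl,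
    show (432000 : PowerSeries ℤ) = C 432000 from rfl, map_add, map_sub, coeff_C_mul, coeff_C_mul, coeff_C_mul,
    coeff_C, if_neg hn, show coeff n (Sg 11) = (ArithmeticFunction.sigma 11 n : ℤ) by rw [Sg, coeff_mk]] at h
  rw [tau]
  linarith

theorem tau_691 {n : ℕ} (hn : n ≠ 0) : (691 : ℤ) ∣ tau n - (ArithmeticFunction.sigma 11 n : ℤ) := by
  have h := tau_691' hn
  have h1 : (691 : ℤ) ∣ 432000 * (tau n - (ArithmeticFunction.sigma 11 n : ℤ)) := by
    refine ⟨coeff n ((1 + 240 * Sg 3) ^ 3) - 720 * (ArithmeticFunction.sigma 11 n : ℤ), ?_⟩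
    linarith
  exact (show IsCoprime (691 : ℤ) 432000 by norm_num).dvd_of_dvd_mul_left h1

theorem zero_pow_691 : (0 : ZMod 691) ^ 11 ≠ -1 := by decide

theorem prime_cond691 {p : ℕ} (hp : p.Prime) (h : tau p = 0) : 691 ∣ p + 1 := by
  haveI : Fact (Nat.Prime 691) := ⟨by norm_num⟩
  have h1 := tau_691 hp.ne_zero
  rw [h, E8X.g2_sigma hp 11, zero_sub, dvd_neg] at h1
  have h2 : (p : ZMod 691) ^ 11 = -1 := by
    have h3 := (ZMod.intCast_zmod_eq_zero_iff_dvd _ 691).2 h1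
    push_cast at h3
    linear_combination h3
  have h0 : (p : ZMod 691) ≠ 0 := by
    intro h3
    rw [h3] at h2
    exact zero_pow_691 h2
  have h4 : (p : ZMod 691) ^ 690 = 1 := ZMod.pow_card_sub_one_eq_one h0
  have h5 : (p : ZMod 691) = -1 := by
    have e : (p : ZMod 691) * ((p : ZMod 691) ^ 690) ^ 4 = ((p : ZMod 691) ^ 11) ^ 251 := by ring
    rw [h4, h2] at e
    rw [one_pow, mul_one] at e
    rw [e]
    exact Odd.neg_one_pow (by decide)
  have h6 : ((p + 1 : ℕ) : ZMod 691) = 0 := by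
    push_cast
    rw [h5]
    ring
  exact (ZMod.natCast_eq_zero_iff _ _).1 h6

end T5X
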