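import Mathlib

/-!
# [T5X-A0] `σ_k(p n) = (1 + p^k) σ_k(n) - p^k σ_k(n/p)`
-/

set_option autoImplicit false

namespace T5X

theorem sigma_hecke {p : ℕ} (hp : p.Prime) (k n : ℕ) : (ArithmeticFunction.sigma k (p * n) : ℤ) =
    (1 + (p : ℤ) ^ k) * (ArithmeticFunction.sigma k n : ℤ) -
      (p : ℤ) ^ k * (if p ∣ n then (ArithmeticFunction.sigma k (n / p) : ℤ) else 0) := by
  rcases Nat.eq_zero_or_pos n with rfl | hn
  · simp
  obtain ⟨a, m, hm, rfl⟩ := Nat.exists_eq_pow_mul_and_not_dvd hn.ne' p hp.ne_one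
  have hc : ∀ b : ℕ, (p ^ b).Coprime m := fun b => Nat.Coprime.pow_left b ((Nat.Prime.coprime_iff_not_dvd hp).2 hm)
  have hmul : ∀ b : ℕ, (ArithmeticFunction.sigma k (p ^ b * m) : ℤ) =
      (∑ j ∈ Finset.range (b + 1), (p : ℤ) ^ (j * k)) * (ArithmeticFunction.sigma k m : ℤ) := by
    intro b
    rw [ArithmeticFunction.isMultiplicative_sigma.map_mul_of_coprime (hc b),
      ArithmeticFunction.sigma_apply_prime_pow hp]
    push_cast
    rfl
  have hs : ∀ b : ℕ, ∑ j ∈ Finset.range (b + 1), (p : ℤ) ^ (j * k) =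
      1 + (p : ℤ) ^ k * ∑ j ∈ Finset.range b, (p : ℤ) ^ (j * k) := by
    intro b
    rw [Finset.sum_range_succ', Finset.mul_sum, zero_mul, pow_zero, add_comm]
    congr 1
    refine Finset.sum_congr rfl fun j _ => ?_
    rw [add_mul, one_mul, pow_add]
    ring
  rw [show p * (p ^ a * m) = p ^ (a + 1) * m by rw [pow_succ]; ring, hmul, hmul]
  rcases Nat.eq_zero_or_pos a with rfl | ha
  · rw [pow_zero, one_mul, if_neg hm, hs 1]
    simp
  · obtain ⟨b, rfl⟩ : ∃ b, a = b + 1 := ⟨a - 1, by omega⟩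
    rw [if_pos ⟨p ^ b * m, by rw [pow_succ]; ring⟩]
    have h1 : p ^ (b + 1) * m / p = p ^ b * m := by
      rw [show p ^ (b + 1) * m = p * (p ^ b * m) by rw [pow_succ]; ring, Nat.mul_div_cancel_left _ hp.pos]
    rw [h1, hmul, hs (b + 1 + 1), hs (b + 1)]
    ring

end T5X
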