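import Pool.Agent.T5X.Defs

/-!
# [T5X-A1] `D E = - (∑ σ(n) X^n) E`
-/

set_option autoImplicit false

open PowerSeries
open N19 (ex)
open NC11 (D)
open E8X (Sg)

namespace T5X

theorem iv_mul {f : PowerSeries ℤ} (h : constantCoeff f = 1) : f * iv f = 1 := by
  rw [iv]
  exact mul_invOfUnit f 1 (by rw [h]; rfl)

theorem E_zero : constantCoeff E = 1 := by
  rw [← coeff_zero_eq_constantCoeff_apply, E]
  have h := coeff_pentagonalSeries_pentagonal ℤ 0
  have h0 : pentagonal 0 = 0 := by decide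
  rw [h0] at h
  rw [h]
  simp

/-- `∑_{j ≥ 1} (k+1) X^{(k+1) j}` -/
noncomputable def gk (k : ℕ) : PowerSeries ℤ :=
  mk fun n => if n ≠ 0 ∧ (k + 1) ∣ n then ((k : ℤ) + 1) else 0

theorem gk_mul (k : ℕ) : gk k * (1 - X ^ (k + 1)) = C ((k : ℤ) + 1) * X ^ (k + 1) := by
  ext n
  rw [mul_sub, mul_one, map_sub, coeff_mul_X_pow', coeff_C_mul, coeff_X_pow, gk, coeff_mk]
  by_cases hd : (k + 1) ∣ n
  · obtain ⟨m, rfl⟩ := hd
    rcases Nat.eq_zero_or_pos m with rfl | hm
    · simp
    · have h1 : (k + 1) ≤ (k + 1) * m := Nat.le_mul_of_pos_right _ hm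
      have h2 : (k + 1) * m ≠ 0 := by positivity
      rw [if_pos h1, coeff_mk, if_pos ⟨h2, Dvd.intro m rfl⟩]
      have h3 : (k + 1) * m - (k + 1) = (k + 1) * (m - 1) := by
        rw [Nat.mul_sub, mul_one]
      rw [h3]
      by_cases hm1 : m = 1
      · subst hm1
        simp
      · have h4 : (k + 1) * (m - 1) ≠ 0 := by
          have : 0 < m - 1 := by omega
          positivity
        rw [if_pos ⟨h4, Dvd.intro _ rfl⟩, if_neg]
        · ring
        · intro h5
          apply hm1
          exact Nat.eq_of_mul_eq_mul_left (Nat.succ_pos k) (by rw [h5, mul_one])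
  · rw [if_neg (fun h => hd h.2)]
    have h1 : n ≠ k + 1 := by
      rintro rfl
      exact hd dvd_rfl
    rw [if_neg h1]
    split_ifs with h2
    · rw [coeff_mk, if_neg]
      · ring
      · rintro ⟨_, h3⟩
        apply hd
        have := Nat.dvd_add h3 (dvd_refl (k + 1))
        rwa [Nat.sub_add_cancel h2] at this
    · ring

theorem D_one_sub (k : ℕ) : D (1 - X ^ (k + 1) : PowerSeries ℤ) = - gk k * (1 - X ^ (k + 1)) := by
  rw [neg_mul, gk_mul]
  ext n
  simp only [D, coeff_mk, map_sub, map_neg, coeff_one, coeff_X_pow, coeff_C_mul]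
  by_cases h : n = k + 1
  · subst h
    simp
  · rw [if_neg h]
    by_cases h0 : n = 0
    · subst h0
      simp
    · rw [if_neg h0]
      simp

theorem D_prod (S : Finset ℕ) : D (∏ k ∈ S, (1 - X ^ (k + 1)) : PowerSeries ℤ) =
    - (∑ k ∈ S, gk k) * ∏ k ∈ S, (1 - X ^ (k + 1)) := by
  classical
  induction S using Finset.induction_on with
  | empty =>
    simp only [Finset.prod_empty, Finset.sum_empty, neg_zero, zero_mul]
    have := E8T.D_C 1
    rwa [map_one] at this
  | insert a S ha ih =>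
    rw [Finset.prod_insert ha, Finset.sum_insert ha, E8T.D_mul, ih, D_one_sub]
    ring

theorem sum_gk {S : Finset ℕ} {i : ℕ} (hS : Finset.range (i + 1) ⊆ S) :
    coeff i (∑ k ∈ S, gk k) = coeff i (Sg 1) := by
  rw [map_sum, Sg, coeff_mk]
  simp only [gk, coeff_mk]
  rcases Nat.eq_zero_or_pos i with rfl | hi
  · simp
  · have hi0 : i ≠ 0 := hi.ne'
    simp only [ne_eq, hi0, not_false_eq_true, true_and]
    rw [← Finset.sum_filter, ArithmeticFunction.sigma_one_apply]
    push_cast
    symm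
    refine Finset.sum_bij (fun d _ => d - 1) ?_ ?_ ?_ ?_
    · intro d hd
      have hd' := Nat.mem_divisors.1 hd
      have h1 : 0 < d := Nat.pos_of_dvd_of_pos hd'.1 hi
      have h2 : d ≤ i := Nat.le_of_dvd hi hd'.1
      rw [Finset.mem_filter]
      refine ⟨hS (Finset.mem_range.2 (by omega)), ?_⟩
      rw [Nat.sub_add_cancel h1]
      exact hd'.1
    · intro a ha b hb hab
      have h1 : 0 < a := Nat.pos_of_dvd_of_pos (Nat.mem_divisors.1 ha).1 hi
      have h2 : 0 < b := Nat.pos_of_dvd_of_pos (Nat.mem_divisors.1 hb).1 hi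
      omega
    · intro b hb
      rw [Finset.mem_filter] at hb
      exact ⟨b + 1, Nat.mem_divisors.2 ⟨hb.2, hi0⟩, by simp⟩
    · intro d hd
      have h1 : 0 < d := Nat.pos_of_dvd_of_pos (Nat.mem_divisors.1 hd).1 hi
      rw [Nat.cast_sub h1]
      push_cast
      ring

/-- the logarithmic derivative of `∏ (1 - X^n)` -/
theorem D_E : D E = - Sg 1 * E := by
  ext n
  have hev : ∀ᶠ S : Finset ℕ in Filter.atTop, (∀ j ∈ Finset.range (n + 1),
      (∏ k ∈ S, (1 - X ^ (k + 1) : PowerSeries ℤ)).coeff j = E.coeff j) ∧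
      Finset.range (n + 1) ⊆ S := by
    refine Filter.Eventually.and ?_ (Filter.eventually_ge_atTop _)
    rw [Filter.eventually_all_finset]
    intro j _
    exact coeff_prod_one_sub_X_pow_eventually_eq ℤ j
  obtain ⟨S, hS1, hS2⟩ := hev.exists
  have h1 : coeff n (D E) = coeff n (D (∏ k ∈ S, (1 - X ^ (k + 1)) : PowerSeries ℤ)) := by
    simp only [D, coeff_mk]
    rw [hS1 n (Finset.self_mem_range_succ n)]
  rw [h1, D_prod, coeff_mul, coeff_mul]
  refine Finset.sum_congr rfl fun p hp => ?_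
  rw [Finset.HasAntidiagonal.mem_antidiagonal] at hp
  have h2 : p.1 ≤ n := by omega
  have h3 : p.2 ≤ n := by omega
  rw [map_neg, map_neg, sum_gk (Finset.Subset.trans (Finset.range_mono (by omega)) hS2),
    hS1 p.2 (Finset.mem_range.2 (by omega))]

end T5X
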