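import Pool.Agent.T5X.A1

/-!
# [T5X-A2] `D Δ = E₂ Δ`, `12 D E₂ = E₂² - E₄`
-/

set_option autoImplicit false

open scoped Real
open PowerSeries
open N19 (ex)
open NC11 (D Ev qq)
open E8X (Sg Dl)

namespace T5X

/-- `E₂` as a function on `ℂ`. -/
noncomputable def e2 (z : ℂ) : ℂ :=
  if h : 0 < z.im then EisensteinSeries.E2 ⟨z, h⟩ else 0

theorem P_ev : Ev P e2 := by
  intro z hz
  have h := EisensteinSeries.hasSum_qExpansion_E2 (z := ⟨z, hz⟩)
  rw [e2, dif_pos hz]
  convert! h using 1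
  funext n
  rw [smul_eq_mul]
  show ((coeff n P : ℤ) : ℂ) * qq z ^ n = _
  rcases Nat.eq_zero_or_pos n with rfl | hn
  · have h0 : coeff 0 P = 1 := by
      rw [P, show (24 : PowerSeries ℤ) = C 24 from rfl, map_sub, coeff_C_mul, E8X.coeff_zero_Sg]
      simp
    rw [h0]
    simp
  · have h1 : coeff n P = -24 * (ArithmeticFunction.sigma 1 n : ℤ) := by
      rw [P, show (24 : PowerSeries ℤ) = C 24 from rfl, map_sub, coeff_C_mul, coeff_one, if_neg hn.ne', Sg,
        coeff_mk]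
      ring
    rw [h1, if_neg hn.ne']
    push_cast
    rfl

open scoped MatrixGroups in
theorem e2_S {z : ℂ} (hz : 0 < z.im) : e2 (-1 / z) = z ^ 2 * e2 z - 6 * Complex.I / π * z := by
  set γ : SL(2, ℤ) := ⟨!![0, -1; 1, 0], by rw [Matrix.det_fin_two_of]; norm_num⟩ with hγ
  set τ : UpperHalfPlane := ⟨z, hz⟩ with hτ
  have h := congrFun (EisensteinSeries.E2_slash_action γ) τ
  have hden : (UpperHalfPlane.denom γ τ : ℂ) = z := by
    simp [UpperHalfPlane.denom, hγ, hτ]
  have hne : z ≠ 0 := by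
    rw [← hden]; exact UpperHalfPlane.denom_ne_zero _ _
  have hsm : ((γ • τ : UpperHalfPlane) : ℂ) = -1 / z := by
    rw [UpperHalfPlane.specialLinearGroup_apply]
    simp [hγ, hτ]
  have him : 0 < (-1 / z : ℂ).im := by
    rw [← hsm]; exact (γ • τ).im_pos
  have hE : e2 (-1 / z) = EisensteinSeries.E2 (γ • τ) := by
    rw [e2, dif_pos him]
    congr 1
    apply UpperHalfPlane.ext
    exact hsm.symm
  have hE' : e2 z = EisensteinSeries.E2 τ := by
    rw [e2, dif_pos hz]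
  rw [ModularForm.SL_slash_apply, hden] at h
  rw [hE, hE']
  simp only [Pi.sub_apply, Pi.smul_apply, EisensteinSeries.D2, riemannZeta_two, hden,
    smul_eq_mul] at h
  have hpi : (π : ℂ) ≠ 0 := by exact_mod_cast Real.pi_ne_zero
  have hc : ((γ 1 0 : ℤ) : ℂ) = 1 := by simp [hγ]
  rw [hc] at h
  have h2 : EisensteinSeries.E2 (γ • τ) =
      (EisensteinSeries.E2 (γ • τ) * (z : ℂ) ^ (-2 : ℤ)) * z ^ 2 := by
    rw [zpow_neg, mul_assoc]
    have : ((z : ℂ) ^ (2 : ℤ))⁻¹ * z ^ 2 = 1 := by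
      rw [zpow_ofNat]
      exact inv_mul_cancel₀ (pow_ne_zero 2 hne)
    rw [this, mul_one]
  rw [h2, h]
  field_simp

theorem im_S {z : ℂ} (hz : 0 < z.im) : 0 < (-1 / z : ℂ).im := by
  have h := UpperHalfPlane.im_inv_neg_coe_pos ⟨z, hz⟩
  have e : (-1 / z : ℂ) = (-z)⁻¹ := by
    rw [neg_div, one_div, inv_neg]
  rw [e]
  exact h

theorem e2_diff {z : ℂ} (hz : 0 < z.im) : DifferentiableAt ℂ e2 z := by
  exact (P_ev.m7_hasDerivAt hz).2.differentiableAt

theorem e2_deriv_S {z : ℂ} (hz : 0 < z.im) :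
    deriv e2 (-1 / z) = z ^ 2 * (2 * z * e2 z + z ^ 2 * deriv e2 z - 6 * Complex.I / π) := by
  have hz0 : z ≠ 0 := by
    rintro rfl
    simp at hz
  have h1 : HasDerivAt (fun w : ℂ => -1 / w) (1 / z ^ 2) z := by
    have h := (hasDerivAt_inv hz0).const_mul (-1)
    have e : (fun w : ℂ => -1 / w) = fun w => -1 * w⁻¹ := by
      funext w
      rw [div_eq_mul_inv]
    rw [e]
    convert! h using 1
    field_simp
  have h2 : HasDerivAt (fun w : ℂ => e2 (-1 / w)) (deriv e2 (-1 / z) * (1 / z ^ 2)) z :=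
    (e2_diff (im_S hz)).hasDerivAt.comp z h1
  have h3 : HasDerivAt (fun w : ℂ => w ^ 2 * e2 w - 6 * Complex.I / π * w)
      (2 * z * e2 z + z ^ 2 * deriv e2 z - 6 * Complex.I / π) z := by
    have h4 := ((hasDerivAt_pow 2 z).mul (e2_diff hz).hasDerivAt).sub
      ((hasDerivAt_id z).const_mul (6 * Complex.I / π))
    convert! h4 using 1
    push_cast
    ring
  have h5 : (fun w : ℂ => e2 (-1 / w)) =ᶠ[nhds z] fun w => w ^ 2 * e2 w - 6 * Complex.I / π * w := by
    filter_upwards [(isOpen_lt continuous_const Complex.continuous_im).mem_nhds hz] with w hw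
    exact e2_S hw
  have h6 := (h2.congr_of_eventuallyEq h5.symm).unique h3
  rw [← h6, mul_comm (deriv e2 (-1 / z)), ← mul_assoc, mul_one_div_cancel (pow_ne_zero 2 hz0), one_mul]

/-- Ramanujan's differential equation for `E₂` -/
theorem DP : 12 * D P = P ^ 2 - Q := by
  have h4 := E8X.eis_ev (k := 4) (by norm_num) ⟨2, rfl⟩ 240 1 (by norm_num) (by exact E8X.bern4)
  have h4' : (C 1 + C 240 * E8X.Sg (4 - 1) : PowerSeries ℤ) = Q := rfl
  rw [h4'] at h4
  have h1 : Ev (P ^ 2 - C 12 * D P - Q) (fun z => e2 z ^ 2 - (12 : ℤ) * (deriv e2 z / (2 * π * Complex.I)) -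
      ((1 : ℤ) : ℂ) * E8X.eis (k := 4) (by norm_num) z) :=
    ((P_ev.pow 2).sub ((Ev.const 12).mul P_ev.deriv)).sub h4
  have h2 := E8X.cusp_zero (k := 4) (by norm_num) h1 ?_ ?_
  · have h3 : (C 12 : PowerSeries ℤ) = 12 := rfl
    rw [h3] at h2
    linear_combination -h2
  · have hD : coeff 0 (D P) = 0 := by
      rw [D, coeff_mk]
      simp
    have hP : coeff 0 P = 1 := by
      rw [P, show (24 : PowerSeries ℤ) = C 24 from rfl, map_sub, coeff_C_mul, E8X.coeff_zero_Sg]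
      simp
    have hP2 : coeff 0 (P ^ 2) = 1 := by
      rw [coeff_zero_eq_constantCoeff_apply, map_pow, ← coeff_zero_eq_constantCoeff_apply, hP, one_pow]
    have hQ : coeff 0 Q = 1 := by
      rw [Q, show (240 : PowerSeries ℤ) = C 240 from rfl, map_add, coeff_C_mul, E8X.coeff_zero_Sg]
      simp
    rw [map_sub, map_sub, coeff_C_mul, hD, hP2, hQ]
    ring
  · intro z hz
    have hz0 : z ≠ 0 := by
      rintro rfl
      simp at hz
    have hpi : (π : ℂ) ≠ 0 := by exact_mod_cast Real.pi_ne_zero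
    have hI : Complex.I ^ 2 = -1 := Complex.I_sq
    rw [E8X.eis_S _ hz, e2_S hz, e2_deriv_S hz]
    push_cast
    field_simp
    ring_nf
    linear_combination (72 * Complex.I - 24 * z * e2 z * π) * hI

end T5X
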