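import Pool.Agent.T5X.A4
import Pool.Agent.T5X.A0

/-!
# [T5X-A5] logarithmic derivatives; `X E(X⁵)⁶ = E₀⁶ t (1 - 11 t⁵ - t¹⁰)`
-/

set_option autoImplicit false

open PowerSeries
open N19 (ex)
open NC11 (D)
open E8X (Sg Dl F3Cl J)

namespace T5X

/-- logarithmic derivative of `ε` -/
noncomputable def le : PowerSeries ℤ := iv eps * D eps

/-- logarithmic derivative of `t` -/
noncomputable def gt : PowerSeries ℤ := 1 - 25 * ex 25 (Sg 1) - 5 * ex 5 le

theorem D_eps : D eps = le * eps := by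
  rw [le]
  linear_combination (-(D eps)) * iv_mul eps_zero

theorem DX : D (X : PowerSeries ℤ) = X := by
  ext n
  simp only [D, coeff_mk, coeff_X]
  split_ifs with h
  · rw [h]
    simp
  · simp

theorem D_ex5 (f : PowerSeries ℤ) : D (ex 5 f) = 5 * ex 5 (D f) := by
  rw [E8T.D_ex (by norm_num)]
  rfl

theorem D_ex25 (f : PowerSeries ℤ) : D (ex 25 f) = 25 * ex 25 (D f) := by
  rw [E8T.D_ex (by norm_num)]
  rfl

theorem ex_neg (k : ℕ) (f : PowerSeries ℤ) : ex k (-f) = - ex k f := by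
  ext n
  rw [map_neg, E8X.f3_coeff_ex, E8X.f3_coeff_ex]
  split_ifs
  · rw [map_neg]
  · rw [neg_zero]

theorem ex_sub (k : ℕ) (f g : PowerSeries ℤ) : ex k (f - g) = ex k f - ex k g := by
  rw [sub_eq_add_neg, E8X.ex_add, ex_neg, ← sub_eq_add_neg]

theorem ex_inj {k : ℕ} (hk : 0 < k) {f g : PowerSeries ℤ} (h : ex k f = ex k g) : f = g := by
  ext n
  have h1 := congrArg (coeff (k * n)) h
  rw [E8X.f3_coeff_ex, E8X.f3_coeff_ex, if_pos (dvd_mul_right _ _), if_pos (dvd_mul_right _ _),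
    Nat.mul_div_cancel_left n hk] at h1
  exact h1

theorem D_e0 : D (ex 5 eps) = 5 * ex 5 le * ex 5 eps := by
  rw [D_ex5, D_eps, E8X.ex_mul (by norm_num)]
  ring

theorem D_E5 : D (ex 5 E) = - (5 * ex 5 (Sg 1)) * ex 5 E := by
  rw [D_ex5, D_E, E8X.ex_mul (by norm_num), ex_neg]
  ring

theorem D_E25 : D (ex 25 E) = - (25 * ex 25 (Sg 1)) * ex 25 E := by
  rw [D_ex25, D_E, E8X.ex_mul (by norm_num), ex_neg]
  ring

theorem e0_ne : ex 5 eps ≠ 0 := ne_zero_of_one (ex_zero eps_zero)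

theorem D_t : D t = gt * t := by
  have h1 : D (t * ex 5 eps) = D (X * ex 25 E) := by rw [t_mul]
  rw [E8T.D_mul, E8T.D_mul, DX, D_e0, D_E25] at h1
  have h2 := t_mul
  refine mul_right_cancel₀ e0_ne ?_
  rw [gt]
  linear_combination h1 + (1 - 25 * ex 25 (Sg 1)) * (-h2)

theorem D_sub (f g : PowerSeries ℤ) : D (f - g) = D f - D g := by
  ext n
  simp only [D, coeff_mk, map_sub, mul_sub]

theorem D_pow (f : PowerSeries ℤ) (k : ℕ) : D (f ^ (k + 1)) = ((k : PowerSeries ℤ) + 1) * f ^ k * D f := Dg_pow f k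

theorem D_t2 : D (t ^ 2) = 2 * gt * t ^ 2 := by
  rw [pow_two, E8T.D_mul, D_t]
  ring

theorem D_t5 : D (t ^ 5) = 5 * gt * t ^ 5 := by
  rw [show (5 : ℕ) = 4 + 1 from rfl, D_pow, D_t]
  push_cast
  ring

theorem D_t10 : D (t ^ 10) = 10 * gt * t ^ 10 := by
  rw [show (10 : ℕ) = 9 + 1 from rfl, D_pow, D_t]
  push_cast
  ring

theorem D_one : D (1 : PowerSeries ℤ) = 0 := Dg_one

/-- `1 - 11 t⁵ - t¹⁰` -/
noncomputable def Ht : PowerSeries ℤ := 1 - 11 * t ^ 5 - t ^ 10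

/-- `Ht / (1 - t - t²)` -/
noncomputable def La : PowerSeries ℤ :=
  1 + t + 2 * t ^ 2 + 3 * t ^ 3 + 5 * t ^ 4 - 3 * t ^ 5 + 2 * t ^ 6 - t ^ 7 + t ^ 8

theorem La_mul : La * (1 - t - t ^ 2) = Ht := by
  rw [La, Ht]
  ring

theorem AB_La : At * Bt = t * La := by
  rw [At, Bt, La]
  ring

/-- from `D E` and `E = E₀ (1 - t - t²)` -/
theorem log_a : - Sg 1 * (1 - t - t ^ 2) = 5 * ex 5 le * (1 - t - t ^ 2) - gt * (t + 2 * t ^ 2) := by
  have h1 := D_E
  rw [E_eq, E8T.D_mul, D_e0, D_sub, D_sub, D_one, D_t, D_t2] at h1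
  refine mul_left_cancel₀ e0_ne ?_
  linear_combination -h1

theorem log_b : - Sg 1 * Ht = 5 * ex 5 le * Ht - gt * ((t + 2 * t ^ 2) * La) := by
  rw [← La_mul]
  linear_combination La * log_a

/-- the part with exponents divisible by `5` -/
noncomputable def cl0 (f : PowerSeries ℤ) : PowerSeries ℤ := mk fun n => if n % 5 = 0 then coeff n f else 0

theorem cl0_self {f : PowerSeries ℤ} (hf : F3Cl 5 0 f) : cl0 f = f := by
  ext n
  rw [cl0, coeff_mk]
  split_ifs with h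
  · rfl
  · rw [hf n (by omega)]

theorem cl0_zero {f : PowerSeries ℤ} {i : ℕ} (hf : F3Cl 5 i f) (hi : i % 5 ≠ 0) : cl0 f = 0 := by
  ext n
  rw [cl0, coeff_mk, map_zero]
  split_ifs with h
  · exact hf n (by omega)
  · rfl

theorem cl0_add (f g : PowerSeries ℤ) : cl0 (f + g) = cl0 f + cl0 g := by
  ext n
  simp only [cl0, coeff_mk, map_add]
  split_ifs <;> ring

theorem cl0_neg (f : PowerSeries ℤ) : cl0 (-f) = - cl0 f := by
  ext n
  simp only [cl0, coeff_mk, map_neg]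
  split_ifs <;> ring

theorem cl0_sub (f g : PowerSeries ℤ) : cl0 (f - g) = cl0 f - cl0 g := by
  rw [sub_eq_add_neg, cl0_add, cl0_neg, ← sub_eq_add_neg]

theorem cl0_mul {f : PowerSeries ℤ} (hf : F3Cl 5 0 f) (g : PowerSeries ℤ) : cl0 (f * g) = f * cl0 g := by
  ext n
  rw [cl0, coeff_mk, coeff_mul, coeff_mul]
  by_cases h : n % 5 = 0
  · rw [if_pos h]
    refine Finset.sum_congr rfl fun p hp => ?_
    rw [Finset.HasAntidiagonal.mem_antidiagonal] at hp
    by_cases h1 : p.1 % 5 = 0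
    · rw [cl0, coeff_mk, if_pos (by omega)]
    · rw [hf p.1 (by omega), zero_mul, zero_mul]
  · rw [if_neg h]
    symm
    refine Finset.sum_eq_zero fun p hp => ?_
    rw [Finset.HasAntidiagonal.mem_antidiagonal] at hp
    by_cases h1 : p.1 % 5 = 0
    · rw [cl0, coeff_mk, if_neg (by omega), mul_zero]
    · rw [hf p.1 (by omega), zero_mul]

theorem cl0_C (c : ℤ) (f : PowerSeries ℤ) : cl0 (C c * f) = C c * cl0 f := by
  ext n
  simp only [cl0, coeff_mk, coeff_C_mul]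
  split_ifs <;> ring

/-- `S f(X⁵)`-type products: the class of `t^i` -/
theorem cl_t : F3Cl 5 1 t := by
  have h : F3Cl 5 0 (iv (ex 5 eps)) := by
    have h1 : ex 5 (iv eps) = iv (ex 5 eps) := by
      have h2 : ex 5 eps * ex 5 (iv eps) = 1 := by
        rw [← E8X.ex_mul (by norm_num), iv_mul eps_zero]
        have := E8X.ex_ofNat (k := 5) (by norm_num) 1
        rwa [map_one] at this
      refine mul_left_cancel₀ e0_ne ?_
      rw [h2, e0_iv]
    rw [← h1]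
    exact cl_ex5 _
  rw [t]
  exact cl_e1.mul h

theorem cl_tp (i : ℕ) : F3Cl 5 i (t ^ i) := by
  have := cl_t.pow i
  rwa [one_mul] at this

theorem cl_const (c : ℤ) : F3Cl 5 0 (C c : PowerSeries ℤ) := by
  intro n hn
  rw [coeff_C, if_neg]
  rintro rfl
  exact hn rfl

theorem sigma_five (n : ℕ) : (ArithmeticFunction.sigma 1 (5 * n) : ℤ) =
    6 * (ArithmeticFunction.sigma 1 n : ℤ) - 5 * (if 5 ∣ n then (ArithmeticFunction.sigma 1 (n / 5) : ℤ) else 0) := by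
  have h := sigma_hecke (p := 5) (by norm_num) 1 n
  rw [h]
  norm_num

theorem cl0_Sg : cl0 (Sg 1) = 6 * ex 5 (Sg 1) - 5 * ex 25 (Sg 1) := by
  ext n
  rw [show (6 : PowerSeries ℤ) = C 6 from rfl, show (5 : PowerSeries ℤ) = C 5 from rfl, map_sub, coeff_C_mul,
    coeff_C_mul, E8X.f3_coeff_ex, E8X.f3_coeff_ex, cl0, coeff_mk]
  by_cases h : n % 5 = 0
  · obtain ⟨m, rfl⟩ := Nat.dvd_of_mod_eq_zero h
    rw [if_pos h, if_pos (dvd_mul_right _ _), Nat.mul_div_cancel_left m (by norm_num), Sg, coeff_mk, coeff_mk,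
      sigma_five]
    by_cases h5 : 5 ∣ m
    · obtain ⟨k, rfl⟩ := h5
      rw [if_pos (dvd_mul_right _ _), if_pos ⟨k, by ring⟩, Nat.mul_div_cancel_left k (by norm_num),
        show 5 * (5 * k) / 25 = k by omega, coeff_mk]
    · rw [if_neg h5, if_neg]
      rintro ⟨c, hc⟩
      exact h5 ⟨c, by omega⟩
  · rw [if_neg h, if_neg (fun hd => h (Nat.mod_eq_zero_of_dvd hd)), if_neg]
    · ring
    · rintro ⟨c, hc⟩
      omega

theorem cl_gt : F3Cl 5 0 gt := by
  have h : gt = ex 5 (1 - 25 * ex 5 (Sg 1) - 5 * le) := by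
    rw [gt, ex_sub, ex_sub]
    have h1 := E8X.ex_ofNat (k := 5) (by norm_num) 1
    rw [map_one] at h1
    rw [h1, show (25 : PowerSeries ℤ) = C 25 from rfl, show (5 : PowerSeries ℤ) = C 5 from rfl,
      E8X.ex_mul (by norm_num), E8X.ex_mul (by norm_num), E8X.ex_ofNat (by norm_num), E8X.ex_ofNat (by norm_num),
      E8X.ex_ex (by norm_num) (by norm_num)]
  rw [h]
  exact cl_ex5 _

theorem cl_Ht : F3Cl 5 0 Ht := by
  have h : Ht = C 1 * t ^ 0 + C (-11) * t ^ 5 + C (-1) * t ^ 10 := by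
    rw [Ht, map_neg, map_neg, map_one, show (C 11 : PowerSeries ℤ) = 11 from rfl]
    ring
  rw [h]
  exact ((((cl_const 1).mul (cl_tp 0)).congr (by norm_num)).add (((cl_const (-11)).mul (cl_tp 5)).congr (by norm_num))).add
    (((cl_const (-1)).mul (cl_tp 10)).congr (by norm_num))

theorem cl0_w : cl0 ((t + 2 * t ^ 2) * La) = 11 * t ^ 5 + 2 * t ^ 10 := by
  have h : (t + 2 * t ^ 2) * La = C 1 * t ^ 1 + C 3 * t ^ 2 + C 4 * t ^ 3 + C 7 * t ^ 4 + C 11 * t ^ 5 + C 7 * t ^ 6 +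
      C (-4) * t ^ 7 + C 3 * t ^ 8 + C (-1) * t ^ 9 + C 2 * t ^ 10 := by
    rw [La]
    simp only [map_neg, map_one, show (C 3 : PowerSeries ℤ) = 3 from rfl, show (C 4 : PowerSeries ℤ) = 4 from rfl,
      show (C 7 : PowerSeries ℤ) = 7 from rfl, show (C 11 : PowerSeries ℤ) = 11 from rfl,
      show (C 2 : PowerSeries ℤ) = 2 from rfl]
    ring
  rw [h]
  simp only [cl0_add, cl0_C]
  rw [cl0_zero (cl_tp 1) (by norm_num), cl0_zero (cl_tp 2) (by norm_num), cl0_zero (cl_tp 3) (by norm_num),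
    cl0_zero (cl_tp 4) (by norm_num), cl0_zero (cl_tp 6) (by norm_num), cl0_zero (cl_tp 7) (by norm_num),
    cl0_zero (cl_tp 8) (by norm_num), cl0_zero (cl_tp 9) (by norm_num), cl0_self ((cl_tp 5).congr (by norm_num)),
    cl0_self ((cl_tp 10).congr (by norm_num)), show (C 11 : PowerSeries ℤ) = 11 from rfl,
      show (C 2 : PowerSeries ℤ) = 2 from rfl]
  ring

/-- class `0` of `log_b` -/
theorem log_c : - (6 * ex 5 (Sg 1) - 5 * ex 25 (Sg 1)) * Ht = 5 * ex 5 le * Ht - gt * (11 * t ^ 5 + 2 * t ^ 10) := by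
  have h1 := congrArg cl0 log_b
  have h2 : - Sg 1 * Ht = Ht * (- Sg 1) := by ring
  have h3 : F3Cl 5 0 (5 * ex 5 le * Ht) := by
    have := ((cl_const 5).mul (cl_ex5 le)).mul cl_Ht
    exact this.congr (by norm_num)
  rw [h2, cl0_mul cl_Ht, cl0_neg, cl0_Sg, cl0_sub, cl0_self h3, cl0_mul cl_gt, cl0_w] at h1
  linear_combination h1

/-- the norm of `E` -/
theorem norm_E : ex 5 eps ^ 5 * Ht * ex 25 E = ex 5 E ^ 6 := by
  have h1 : D (ex 5 eps ^ 5 * Ht * ex 25 E) = - (30 * ex 5 (Sg 1)) * (ex 5 eps ^ 5 * Ht * ex 25 E) := by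
    have hH : D Ht = - gt * (55 * t ^ 5 + 10 * t ^ 10) := by
      rw [Ht, D_sub, D_sub, D_one, show (11 : PowerSeries ℤ) = C 11 from rfl, E8T.D_mul, E8T.D_C, D_t5, D_t10,
        show (C 11 : PowerSeries ℤ) = 11 from rfl]
      ring
    have h5 : D (ex 5 eps ^ 5) = 25 * ex 5 le * ex 5 eps ^ 5 := by
      rw [show (5 : ℕ) = 4 + 1 from rfl, D_pow, D_e0]
      push_cast
      ring
    rw [E8T.D_mul, E8T.D_mul, h5, hH, D_E25]
    linear_combination (-5 * ex 5 eps ^ 5 * ex 25 E) * log_c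
  have h2 : D (ex 5 E ^ 6) = - (30 * ex 5 (Sg 1)) * ex 5 E ^ 6 := by
    rw [show (6 : ℕ) = 5 + 1 from rfl, D_pow, D_E5]
    push_cast
    ring
  have h3 : D (ex 5 eps ^ 5 * Ht * ex 25 E - ex 5 E ^ 6) = - (30 * ex 5 (Sg 1)) * (ex 5 eps ^ 5 * Ht * ex 25 E - ex 5 E ^ 6) := by
    rw [D_sub, h1, h2]
    ring
  have ht : constantCoeff t = 0 := by
    rw [t, map_mul, map_mul, constantCoeff_X, zero_mul, zero_mul]
  have h4 := log_zero h3 (by
    intro n hn
    have hP : coeff 0 (-(30 * ex 5 (Sg 1))) = 0 := by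
      rw [map_neg, show (30 : PowerSeries ℤ) = C 30 from rfl, coeff_C_mul, E8X.f3_coeff_ex, if_pos (dvd_zero _),
        Nat.zero_div, E8X.coeff_zero_Sg]
      ring
    rw [hP] at hn
    have hn0 : n = 0 := by exact_mod_cast hn
    subst hn0
    rw [map_sub, coeff_zero_eq_constantCoeff_apply, coeff_zero_eq_constantCoeff_apply, map_mul, map_mul, map_pow,
      map_pow, ex_zero eps_zero, ex_zero E_zero, ex_zero E_zero, Ht, map_sub, map_sub, map_mul, map_pow, map_pow, ht]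
    norm_num)
  linear_combination h4

end T5X
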