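import Pool.Agent.T5X.A5

/-!
# [T5X-A6] `s = S A²`, `s r = S A B`, `s r² = S B²`
-/

set_option autoImplicit false

open PowerSeries
open N19 (ex)
open NC11 (D)
open E8X (Sg Dl F3Cl J)

namespace T5X

theorem ex_one (k : ℕ) (hk : 0 < k) : ex k (1 : PowerSeries ℤ) = 1 := by
  have h := E8X.ex_ofNat hk 1
  rwa [map_one] at h

theorem ex_iv {k : ℕ} (hk : 0 < k) {f : PowerSeries ℤ} (hf : constantCoeff f = 1) : ex k (iv f) = iv (ex k f) := by
  have h2 : ex k f * ex k (iv f) = 1 := by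
    rw [← E8X.ex_mul hk, iv_mul hf, ex_one k hk]
  have h3 : ex k f * iv (ex k f) = 1 := iv_mul (ex_zero hf)
  refine mul_left_cancel₀ (ne_zero_of_one (ex_zero (k := k) hf)) ?_
  rw [h2, h3]

theorem s_E : s * E = eps ^ 5 := by
  rw [s]
  linear_combination eps ^ 5 * iv_mul E_zero

theorem r_eps : r * eps ^ 5 = X * ex 5 E ^ 5 := by
  have h : (eps * iv eps) ^ 5 = 1 := by rw [iv_mul eps_zero, one_pow]
  rw [r]
  linear_combination X * ex 5 E ^ 5 * h

theorem sr_E : s * r * E = X * ex 5 E ^ 5 := by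
  linear_combination r * s_E + r_eps

theorem S_E5 : S * ex 5 E = ex 5 eps ^ 5 := by
  rw [S, ← E8X.ex_mul (by norm_num), s_E, E8X.ex_pow (by norm_num)]

theorem ex_r : ex 5 r = t ^ 5 := by
  rw [r, t, E8X.ex_mul (by norm_num), E8X.ex_mul (by norm_num), E8X.ex_pow (by norm_num), E8X.ex_pow (by norm_num),
    E8X.ex_X (by norm_num), E8X.ex_ex (by norm_num) (by norm_num), ex_iv (by norm_num) eps_zero]
  ring

theorem ex_H : ex 5 (1 - 11 * r - r ^ 2) = Ht := by
  rw [ex_sub, ex_sub, ex_one 5 (by norm_num), show (11 : PowerSeries ℤ) = C 11 from rfl, E8X.ex_mul (by norm_num),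
    E8X.ex_ofNat (by norm_num), E8X.ex_pow (by norm_num), ex_r, Ht, show (11 : PowerSeries ℤ) = C 11 from rfl]
  ring

theorem X_E5 : X * ex 5 E ^ 6 = ex 5 eps ^ 6 * t * Ht := by
  linear_combination (-X) * norm_E + (-(ex 5 eps ^ 5) * Ht) * t_mul

theorem norm_q : eps ^ 5 * (1 - 11 * r - r ^ 2) * ex 5 E = E ^ 6 := by
  refine ex_inj (k := 5) (by norm_num) ?_
  rw [E8X.ex_mul (by norm_num), E8X.ex_mul (by norm_num), ex_H, E8X.ex_pow (by norm_num), E8X.ex_pow (by norm_num),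
    E8X.ex_ex (by norm_num) (by norm_num)]
  exact norm_E

theorem E_ne : E ≠ 0 := ne_zero_of_one E_zero

theorem E5_ne : ex 5 E ≠ 0 := ne_zero_of_one (ex_zero E_zero)

theorem h1_E5 : s * (1 - 11 * r - r ^ 2) * ex 5 E = E ^ 5 := by
  refine mul_left_cancel₀ E_ne ?_
  linear_combination norm_q + (1 - 11 * r - r ^ 2) * ex 5 E * s_E

theorem sr_eq : s * r = S * (At * Bt) := by
  have h1 : (s * r) * (E * ex 5 E) = (S * (At * Bt)) * (E * ex 5 E) := by
    have h2 : (S * (At * Bt)) * (E * ex 5 E) = ex 5 eps ^ 6 * t * Ht := by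
      rw [AB_La]
      linear_combination (S * t * La * ex 5 E) * E_eq + (t * La * (ex 5 eps * (1 - t - t ^ 2))) * S_E5 +
        (ex 5 eps ^ 6 * t) * La_mul
    rw [h2, ← X_E5]
    linear_combination ex 5 E * sr_E
  exact mul_right_cancel₀ (mul_ne_zero E_ne E5_ne) h1

theorem h1_eq : s * (1 - 11 * r - r ^ 2) = S * (1 - t - t ^ 2) ^ 5 := by
  refine mul_right_cancel₀ E5_ne ?_
  rw [h1_E5]
  have h : E ^ 5 = ex 5 eps ^ 5 * (1 - t - t ^ 2) ^ 5 := by
    conv_lhs => rw [E_eq]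
    ring
  rw [h]
  linear_combination (-(1 - t - t ^ 2) ^ 5) * S_E5

theorem lam5 : (1 - t - t ^ 2) ^ 5 = At ^ 2 - 11 * (At * Bt) - Bt ^ 2 := by
  rw [At, Bt]
  ring

theorem s_zero : constantCoeff s = 1 := by
  have h := congrArg (constantCoeff (R := ℤ)) s_E
  rw [map_mul, map_pow, E_zero, eps_zero] at h
  linarith

theorem r_zero : constantCoeff r = 0 := by
  rw [r, map_mul, map_mul, constantCoeff_X, zero_mul, zero_mul]

theorem t_zero : constantCoeff t = 0 := by
  rw [t, map_mul, map_mul, constantCoeff_X, zero_mul, zero_mul]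

theorem S_zero : constantCoeff S = 1 := ex_zero s_zero

theorem sdiff : s - s * r ^ 2 = S * (At ^ 2 - Bt ^ 2) := by
  have h1 := h1_eq
  rw [lam5] at h1
  linear_combination h1 + 11 * sr_eq

theorem ssum : s + s * r ^ 2 = S * (At ^ 2 + Bt ^ 2) := by
  have h1 : (s + s * r ^ 2 - S * (At ^ 2 + Bt ^ 2)) * (s + s * r ^ 2 + S * (At ^ 2 + Bt ^ 2)) = 0 := by
    linear_combination (s - s * r ^ 2 + S * (At ^ 2 - Bt ^ 2)) * sdiff + 4 * (s * r + S * (At * Bt)) * sr_eq
  rcases mul_eq_zero.1 h1 with h2 | h2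
  · exact sub_eq_zero.1 h2
  · exfalso
    have h3 := congrArg (constantCoeff (R := ℤ)) h2
    rw [At, Bt] at h3
    simp only [map_add, map_sub, map_mul, map_pow, s_zero, r_zero, S_zero, t_zero, map_one, map_zero] at h3
    norm_num at h3

theorem s_eq : s = S * At ^ 2 := by
  have h2 : (2 : PowerSeries ℤ) ≠ 0 := by
    intro h
    have := congrArg (constantCoeff (R := ℤ)) h
    rw [show (2 : PowerSeries ℤ) = C 2 from rfl, constantCoeff_C, map_zero] at this
    norm_num at this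
  refine mul_left_cancel₀ h2 ?_
  linear_combination sdiff + ssum

theorem sr2_eq : s * r ^ 2 = S * Bt ^ 2 := by
  linear_combination ssum - s_eq

end T5X
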