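import Pool.Agent.T5X.A6

/-!
# [T5X-A7] `M = s (1 + r²)` and `D r = r s (1 - 11 r - r²)`
-/

set_option autoImplicit false

open PowerSeries
open N19 (ex)
open NC11 (D)
open E8X (Sg Dl F3Cl J)

namespace T5X

theorem AB_sum : At ^ 2 + Bt ^ 2 = Ht - 55 * t ^ 5 - 10 * t ^ 10 + 6 * ((t + 2 * t ^ 2) * La) := by
  rw [At, Bt, Ht, La]
  ring

theorem M_Ht : M * Ht = gt * (At ^ 2 + Bt ^ 2) := by
  rw [AB_sum, M]
  have h1 := log_b
  have h2 := log_c
  have h3 : gt * Ht = (1 - 25 * ex 25 (Sg 1) - 5 * ex 5 le) * Ht := by rw [← gt]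
  linear_combination (-6) * h1 + 5 * h2 - h3

/-- logarithmic derivative of `r` -/
noncomputable def gr : PowerSeries ℤ := 1 - 25 * ex 5 (Sg 1) - 5 * le

theorem ex_gr : ex 5 gr = gt := by
  rw [gr, gt, ex_sub, ex_sub, ex_one 5 (by norm_num), show (25 : PowerSeries ℤ) = C 25 from rfl,
    show (5 : PowerSeries ℤ) = C 5 from rfl,
    E8X.ex_mul (by norm_num), E8X.ex_mul (by norm_num), E8X.ex_ofNat (by norm_num), E8X.ex_ofNat (by norm_num),
    E8X.ex_ex (by norm_num) (by norm_num)]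

theorem five_ne : (5 : PowerSeries ℤ) ≠ 0 := by
  intro h
  have := congrArg (constantCoeff (R := ℤ)) h
  rw [show (5 : PowerSeries ℤ) = C 5 from rfl, constantCoeff_C, map_zero] at this
  norm_num at this

theorem D_r : D r = gr * r := by
  refine ex_inj (k := 5) (by norm_num) ?_
  refine mul_left_cancel₀ five_ne ?_
  rw [← D_ex5, ex_r, D_t5, E8X.ex_mul (by norm_num), ex_gr, ex_r]
  ring

theorem ex_fix {f : PowerSeries ℤ} (h : f = ex 5 f) : f = C (constantCoeff f) := by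
  ext n
  induction n using Nat.strong_induction_on with
  | _ n ih =>
    rw [coeff_C]
    by_cases hn : n = 0
    · subst hn
      rw [if_pos rfl, coeff_zero_eq_constantCoeff_apply]
    · rw [if_neg hn, h, E8X.f3_coeff_ex]
      split_ifs with hd
      · have h1 : n / 5 < n := Nat.div_lt_self (Nat.pos_of_ne_zero hn) (by norm_num)
        have h2 : n / 5 ≠ 0 := by
          obtain ⟨c, rfl⟩ := hd
          rw [Nat.mul_div_cancel_left c (by norm_num)]
          rintro rfl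
          exact hn rfl
        rw [ih _ h1, coeff_C, if_neg h2]
      · rfl

theorem Ht_zero : constantCoeff Ht = 1 := by
  rw [Ht]
  simp only [map_sub, map_mul, map_pow, map_one, t_zero]
  norm_num

theorem Ht_ne : Ht ≠ 0 := ne_zero_of_one Ht_zero

theorem cl_S : F3Cl 5 0 S := cl_ex5 s

theorem cl0_M : cl0 M = ex 5 M := by
  have h1 : M = C 1 + C 6 * Sg 1 - C 30 * ex 5 (Sg 1) := by
    rw [M, map_one]
    rfl
  rw [h1, cl0_sub, cl0_add, cl0_C, cl0_C, cl0_Sg, cl0_self (cl_const 1), cl0_self (cl_ex5 _), ex_sub, E8X.ex_add,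
    E8X.ex_mul (by norm_num), E8X.ex_mul (by norm_num), E8X.ex_ofNat (by norm_num), E8X.ex_ofNat (by norm_num),
    E8X.ex_ofNat (by norm_num), E8X.ex_ex (by norm_num) (by norm_num), map_one,
    show (C 6 : PowerSeries ℤ) = 6 from rfl, show (C 30 : PowerSeries ℤ) = 30 from rfl]
  ring

theorem cl0_AB : cl0 (At ^ 2 + Bt ^ 2) = 1 + t ^ 10 := by
  have h : At ^ 2 + Bt ^ 2 = C 1 * t ^ 0 + C 6 * t ^ 1 + C 18 * t ^ 2 + C 24 * t ^ 3 + C 42 * t ^ 4 + C 42 * t ^ 6 +
      C (-24) * t ^ 7 + C 18 * t ^ 8 + C (-6) * t ^ 9 + C 1 * t ^ 10 := by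
    rw [At, Bt]
    simp only [map_neg, map_one, show (C 6 : PowerSeries ℤ) = 6 from rfl, show (C 18 : PowerSeries ℤ) = 18 from rfl,
      show (C 24 : PowerSeries ℤ) = 24 from rfl, show (C 42 : PowerSeries ℤ) = 42 from rfl]
    ring
  rw [h]
  simp only [cl0_add, cl0_C]
  rw [cl0_zero (cl_tp 1) (by norm_num), cl0_zero (cl_tp 2) (by norm_num), cl0_zero (cl_tp 3) (by norm_num),
    cl0_zero (cl_tp 4) (by norm_num), cl0_zero (cl_tp 6) (by norm_num), cl0_zero (cl_tp 7) (by norm_num),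
    cl0_zero (cl_tp 8) (by norm_num), cl0_zero (cl_tp 9) (by norm_num), cl0_self ((cl_tp 0).congr (by norm_num)),
    cl0_self ((cl_tp 10).congr (by norm_num)), map_one]
  ring

theorem kappa : gr = s * (1 - 11 * r - r ^ 2) ∧ M = s * (1 + r ^ 2) := by
  obtain ⟨hq, hhq⟩ : ∃ hq, hq = s * (1 - 11 * r - r ^ 2) := ⟨_, rfl⟩
  have hq0 : constantCoeff hq = 1 := by
    rw [hhq]
    simp only [map_sub, map_mul, map_pow, map_one, r_zero, s_zero]
    norm_num
  obtain ⟨k, hk⟩ : ∃ k, k = gr * iv hq := ⟨_, rfl⟩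
  have h1 : gr = k * hq := by
    rw [hk]
    linear_combination (-gr) * iv_mul hq0
  have h2 : gt = ex 5 k * (S * Ht) := by
    rw [← ex_gr, h1, E8X.ex_mul (by norm_num), hhq, E8X.ex_mul (by norm_num), ex_H, S]
  have h3 : M = ex 5 k * (S * (At ^ 2 + Bt ^ 2)) := by
    refine mul_right_cancel₀ Ht_ne ?_
    rw [M_Ht, h2]
    ring
  have h4 : M = k * (s * (1 + r ^ 2)) := by
    refine ex_inj (k := 5) (by norm_num) ?_
    rw [← cl0_M, h3, cl0_mul (cl_ex5 k), cl0_mul cl_S, cl0_AB, E8X.ex_mul (by norm_num), E8X.ex_mul (by norm_num),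
      E8X.ex_add, ex_one 5 (by norm_num), E8X.ex_pow (by norm_num), ex_r, S]
    ring
  have h5 : k = ex 5 k := by
    have h6 : k * (S * (At ^ 2 + Bt ^ 2)) = ex 5 k * (S * (At ^ 2 + Bt ^ 2)) := by
      rw [← h3, h4, ← ssum]
      ring
    refine mul_right_cancel₀ ?_ h6
    refine ne_zero_of_one ?_
    rw [← ssum]
    simp only [map_add, map_mul, map_pow, r_zero, s_zero]
    norm_num
  have h6 : constantCoeff k = 1 := by
    have h7 := congrArg (constantCoeff (R := ℤ)) h4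
    have hM : constantCoeff M = 1 := by
      rw [← coeff_zero_eq_constantCoeff_apply, M, show (6 : PowerSeries ℤ) = C 6 from rfl,
        show (30 : PowerSeries ℤ) = C 30 from rfl, map_sub, map_add, coeff_C_mul, coeff_C_mul, E8X.f3_coeff_ex,
        if_pos (dvd_zero _), Nat.zero_div, E8X.coeff_zero_Sg]
      simp
    rw [hM] at h7
    simp only [map_add, map_mul, map_pow, map_one, r_zero, s_zero] at h7
    linarith
  have h7 : k = 1 := by
    rw [ex_fix h5, h6, map_one]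
  rw [h7, one_mul] at h1 h4
  exact ⟨h1.trans hhq, h4⟩

end T5X
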