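import Pool.Agent.T5X.A7

/-!
# [T5X-A8] `E₄ = s² (1 + 228 r + 494 r² - 228 r³ + r⁴)`, `Δ = s⁶ r (1 - 11 r - r²)⁵`
-/

set_option autoImplicit false

open PowerSeries
open N19 (ex)
open NC11 (D)
open E8X (Sg Dl F3Cl J)

namespace T5X

theorem gr_eq : gr = s * (1 - 11 * r - r ^ 2) := kappa.1

theorem M_eq : M = s * (1 + r ^ 2) := kappa.2

theorem D_s : 6 * D s = s * (P - s * (1 - 66 * r - 11 * r ^ 2)) := by
  have h1 : D (s * E) = D (eps ^ 5) := by rw [s_E]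
  have h5 : D (eps ^ 5) = 5 * le * eps ^ 5 := by
    rw [show (5 : ℕ) = 4 + 1 from rfl, D_pow, D_eps]
    push_cast
    ring
  rw [E8T.D_mul, D_E, h5, ← s_E] at h1
  have h2 : D s = s * (5 * le + Sg 1) := by
    refine mul_right_cancel₀ E_ne ?_
    linear_combination h1
  have h3 := gr_eq
  have h4 := M_eq
  rw [gr] at h3
  rw [M] at h4
  rw [h2, P]
  linear_combination (-6 * s) * h3 + (5 * s) * h4

theorem D_M : 6 * D M = s * (P - s * (1 - 66 * r - 11 * r ^ 2)) * (1 + r ^ 2) +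
    12 * s ^ 2 * r ^ 2 * (1 - 11 * r - r ^ 2) := by
  have h2 : D (1 + r ^ 2) = 2 * r * (gr * r) := by
    rw [E8T.D_add, D_one, pow_two, E8T.D_mul, D_r]
    ring
  rw [M_eq, E8T.D_mul, h2, gr_eq]
  linear_combination (1 + r ^ 2) * D_s

theorem P_five : P = 5 * ex 5 P - 4 * M := by
  rw [P, M, ex_sub, ex_one 5 (by norm_num), show (24 : PowerSeries ℤ) = C 24 from rfl, E8X.ex_mul (by norm_num),
    E8X.ex_ofNat (by norm_num), show (C 24 : PowerSeries ℤ) = 24 from rfl]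
  ring

theorem Q_a : Q = 25 * ex 5 Q - 24 * (s ^ 2 * (1 - 22 * r - 6 * r ^ 2 + 22 * r ^ 3 + r ^ 4)) := by
  have h1 : D P = 5 * D (ex 5 P) - 4 * D M := by
    have h := congrArg D P_five
    rw [D_sub, show (5 : PowerSeries ℤ) = C 5 from rfl, show (4 : PowerSeries ℤ) = C 4 from rfl, E8T.D_mul,
      E8T.D_mul, E8T.D_C, E8T.D_C, show (C 5 : PowerSeries ℤ) = 5 from rfl,
      show (C 4 : PowerSeries ℤ) = 4 from rfl] at h
    rw [h]
    ring
  have h2 : 12 * D (ex 5 P) = 5 * (ex 5 P ^ 2 - ex 5 Q) := by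
    have h := congrArg (ex 5) DP
    rw [E8X.ex_mul (by norm_num), show (12 : PowerSeries ℤ) = C 12 from rfl, E8X.ex_ofNat (by norm_num), ex_sub,
      E8X.ex_pow (by norm_num), show (C 12 : PowerSeries ℤ) = 12 from rfl] at h
    rw [D_ex5]
    linear_combination 5 * h
  have h3 := DP
  have h4 := D_M
  have h5 := P_five
  have h6 := M_eq
  linear_combination h3 - 12 * h1 - 5 * h2 + 8 * h4 + (P + 5 * ex 5 P + 4 * M) * h5 -
    (8 * P + 16 * (M + s * (1 + r ^ 2))) * h6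

theorem sigma3_five (n : ℕ) : (ArithmeticFunction.sigma 3 (5 * n) : ℤ) =
    126 * (ArithmeticFunction.sigma 3 n : ℤ) - 125 * (if 5 ∣ n then (ArithmeticFunction.sigma 3 (n / 5) : ℤ) else 0) := by
  have h := sigma_hecke (p := 5) (by norm_num) 3 n
  rw [h]
  norm_num

theorem cl0_Sg3 : cl0 (Sg 3) = 126 * ex 5 (Sg 3) - 125 * ex 25 (Sg 3) := by
  ext n
  rw [show (126 : PowerSeries ℤ) = C 126 from rfl, show (125 : PowerSeries ℤ) = C 125 from rfl, map_sub, coeff_C_mul,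
    coeff_C_mul, E8X.f3_coeff_ex, E8X.f3_coeff_ex, cl0, coeff_mk]
  by_cases h : n % 5 = 0
  · obtain ⟨m, rfl⟩ := Nat.dvd_of_mod_eq_zero h
    rw [if_pos h, if_pos (dvd_mul_right _ _), Nat.mul_div_cancel_left m (by norm_num), Sg, coeff_mk, coeff_mk,
      sigma3_five]
    by_cases h5 : 5 ∣ m
    · obtain ⟨k, rfl⟩ := h5
      rw [if_pos (dvd_mul_right _ _), if_pos ⟨k, by ring⟩, Nat.mul_div_cancel_left k (by norm_num),
        show 5 * (5 * k) / 25 = k by omega, coeff_mk]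
    · rw [if_neg h5, if_neg]
      rintro ⟨c, hc⟩
      exact h5 ⟨c, by omega⟩
  · rw [if_neg h, if_neg (fun hd => h (Nat.mod_eq_zero_of_dvd hd)), if_neg]
    · ring
    · rintro ⟨c, hc⟩
      omega

theorem ex_Q5 : ex 5 Q = 1 + 240 * ex 5 (Sg 3) := by
  rw [Q, E8X.ex_add, ex_one 5 (by norm_num), show (240 : PowerSeries ℤ) = C 240 from rfl, E8X.ex_mul (by norm_num),
    E8X.ex_ofNat (by norm_num)]

theorem ex_Q25 : ex 25 Q = 1 + 240 * ex 25 (Sg 3) := by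
  rw [Q, E8X.ex_add, ex_one 25 (by norm_num), show (240 : PowerSeries ℤ) = C 240 from rfl, E8X.ex_mul (by norm_num),
    E8X.ex_ofNat (by norm_num)]

theorem cl0_Q : cl0 Q = 126 * ex 5 Q - 125 * ex 25 Q := by
  have h1 : Q = C 1 + C 240 * Sg 3 := by
    rw [Q, map_one]
    rfl
  rw [ex_Q5, ex_Q25, h1, cl0_add, cl0_C, cl0_Sg3, cl0_self (cl_const 1), map_one,
    show (C 240 : PowerSeries ℤ) = 240 from rfl]
  ring

theorem cl0_phi : cl0 (At ^ 4 - 22 * (At ^ 3 * Bt) - 6 * (At ^ 2 * Bt ^ 2) + 22 * (At * Bt ^ 3) + Bt ^ 4) =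
    1 - 1022 * t ^ 5 - 2006 * t ^ 10 + 1022 * t ^ 15 + t ^ 20 := by
  have h : At ^ 4 - 22 * (At ^ 3 * Bt) - 6 * (At ^ 2 * Bt ^ 2) + 22 * (At * Bt ^ 3) + Bt ^ 4 =
      C (1) * t ^ 0 + C (-10) * t ^ 1 + C (-90) * t ^ 2 + C (-280) * t ^ 3 + C (-730) * t ^ 4 + C (-1022) * t ^ 5 + C (-2410) * t ^ 6 + C (-2540) * t ^ 7 + C (-3330) * t ^ 8 + C (-1730) * t ^ 9 + C (-2006) * t ^ 10 + C (1730) * t ^ 11 + C (-3330) * t ^ 12 + C (2540) * t ^ 13 + C (-2410) * t ^ 14 + C (1022) * t ^ 15 + C (-730) * t ^ 16 + C (280) * t ^ 17 + C (-90) * t ^ 18 + C (10) * t ^ 19 + C (1) * t ^ 20 := by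
    rw [At, Bt]
    simp only [map_neg, map_one, show (C 10 : PowerSeries ℤ) = 10 from rfl, show (C 90 : PowerSeries ℤ) = 90 from rfl, show (C 280 : PowerSeries ℤ) = 280 from rfl, show (C 730 : PowerSeries ℤ) = 730 from rfl, show (C 1022 : PowerSeries ℤ) = 1022 from rfl, show (C 1730 : PowerSeries ℤ) = 1730 from rfl, show (C 2006 : PowerSeries ℤ) = 2006 from rfl, show (C 2410 : PowerSeries ℤ) = 2410 from rfl, show (C 2540 : PowerSeries ℤ) = 2540 from rfl, show (C 3330 : PowerSeries ℤ) = 3330 from rfl]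
    ring
  rw [h]
  simp only [cl0_add, cl0_C]
  rw [cl0_zero (cl_tp 1) (by norm_num), cl0_zero (cl_tp 2) (by norm_num), cl0_zero (cl_tp 3) (by norm_num), cl0_zero (cl_tp 4) (by norm_num), cl0_zero (cl_tp 6) (by norm_num), cl0_zero (cl_tp 7) (by norm_num), cl0_zero (cl_tp 8) (by norm_num), cl0_zero (cl_tp 9) (by norm_num), cl0_zero (cl_tp 11) (by norm_num), cl0_zero (cl_tp 12) (by norm_num), cl0_zero (cl_tp 13) (by norm_num), cl0_zero (cl_tp 14) (by norm_num), cl0_zero (cl_tp 16) (by norm_num), cl0_zero (cl_tp 17) (by norm_num), cl0_zero (cl_tp 18) (by norm_num), cl0_zero (cl_tp 19) (by norm_num), cl0_self ((cl_tp 0).congr (by norm_num)), cl0_self ((cl_tp 5).congr (by norm_num)), cl0_self ((cl_tp 10).congr (by norm_num)), cl0_self ((cl_tp 15).congr (by norm_num)), cl0_self ((cl_tp 20).congr (by norm_num))]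
  simp only [map_neg, map_one, show (C 10 : PowerSeries ℤ) = 10 from rfl, show (C 90 : PowerSeries ℤ) = 90 from rfl, show (C 280 : PowerSeries ℤ) = 280 from rfl, show (C 730 : PowerSeries ℤ) = 730 from rfl, show (C 1022 : PowerSeries ℤ) = 1022 from rfl, show (C 1730 : PowerSeries ℤ) = 1730 from rfl, show (C 2006 : PowerSeries ℤ) = 2006 from rfl, show (C 2410 : PowerSeries ℤ) = 2410 from rfl, show (C 2540 : PowerSeries ℤ) = 2540 from rfl, show (C 3330 : PowerSeries ℤ) = 3330 from rfl]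
  ring

theorem s2_eq : s ^ 2 * (1 - 22 * r - 6 * r ^ 2 + 22 * r ^ 3 + r ^ 4) =
    S ^ 2 * (At ^ 4 - 22 * (At ^ 3 * Bt) - 6 * (At ^ 2 * Bt ^ 2) + 22 * (At * Bt ^ 3) + Bt ^ 4) := by
  have h0 := s_eq
  have h1 := sr_eq
  have h2 := sr2_eq
  have e : s ^ 2 * (1 - 22 * r - 6 * r ^ 2 + 22 * r ^ 3 + r ^ 4) =
      s * s - 22 * (s * (s * r)) - 6 * (s * r) ^ 2 + 22 * ((s * r) * (s * r ^ 2)) + (s * r ^ 2) ^ 2 := by ring
  rw [e, h1, h2, h0]
  ring

theorem Q5_eq : ex 5 Q = S ^ 2 * (1 + 228 * t ^ 5 + 494 * t ^ 10 - 228 * t ^ 15 + t ^ 20) := by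
  have h1 := Q_a
  have h2 := congrArg cl0 h1
  rw [s2_eq] at h2
  have h3 : cl0 (25 * ex 5 Q - 24 * (S ^ 2 * (At ^ 4 - 22 * (At ^ 3 * Bt) - 6 * (At ^ 2 * Bt ^ 2) +
      22 * (At * Bt ^ 3) + Bt ^ 4))) = 25 * ex 5 Q - 24 * (S ^ 2 * (1 - 1022 * t ^ 5 - 2006 * t ^ 10 +
      1022 * t ^ 15 + t ^ 20)) := by
    rw [cl0_sub, show (25 : PowerSeries ℤ) = C 25 from rfl, show (24 : PowerSeries ℤ) = C 24 from rfl, cl0_C, cl0_C,
      cl0_self (cl_ex5 Q), cl0_mul ((cl_S.pow 2).congr (by norm_num)), cl0_phi]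
  rw [h3, cl0_Q] at h2
  have h4 := congrArg (ex 5) h1
  have h5 : ex 5 (s ^ 2 * (1 - 22 * r - 6 * r ^ 2 + 22 * r ^ 3 + r ^ 4)) =
      S ^ 2 * (1 - 22 * t ^ 5 - 6 * t ^ 10 + 22 * t ^ 15 + t ^ 20) := by
    rw [E8X.ex_mul (by norm_num), E8X.ex_add, E8X.ex_add, ex_sub, ex_sub, ex_one 5 (by norm_num),
      show (22 : PowerSeries ℤ) = C 22 from rfl, show (6 : PowerSeries ℤ) = C 6 from rfl,
      E8X.ex_mul (by norm_num), E8X.ex_mul (by norm_num), E8X.ex_mul (by norm_num), E8X.ex_pow (by norm_num),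
      E8X.ex_pow (by norm_num), E8X.ex_pow (by norm_num), E8X.ex_pow (by norm_num),
      E8X.ex_ofNat (by norm_num), E8X.ex_ofNat (by norm_num), ex_r, ← S]
    ring
  rw [ex_sub, show (25 : PowerSeries ℤ) = C 25 from rfl, show (24 : PowerSeries ℤ) = C 24 from rfl,
    E8X.ex_mul (by norm_num), E8X.ex_mul (by norm_num), E8X.ex_ofNat (by norm_num), E8X.ex_ofNat (by norm_num),
    E8X.ex_ex (by norm_num) (by norm_num), h5, show (C 25 : PowerSeries ℤ) = 25 from rfl,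
    show (C 24 : PowerSeries ℤ) = 24 from rfl] at h4
  have h96 : (96 : PowerSeries ℤ) ≠ 0 := by
    intro h
    have := congrArg (constantCoeff (R := ℤ)) h
    rw [show (96 : PowerSeries ℤ) = C 96 from rfl, constantCoeff_C, map_zero] at this
    norm_num at this
  refine mul_left_cancel₀ h96 ?_
  linear_combination h2 + (-5) * h4

/-- `E₄` -/
theorem Q_eq : Q = s ^ 2 * (1 + 228 * r + 494 * r ^ 2 - 228 * r ^ 3 + r ^ 4) := by
  refine ex_inj (k := 5) (by norm_num) ?_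
  rw [Q5_eq, E8X.ex_mul (by norm_num), E8X.ex_add, ex_sub, E8X.ex_add, E8X.ex_add, ex_one 5 (by norm_num),
      show (228 : PowerSeries ℤ) = C 228 from rfl, show (494 : PowerSeries ℤ) = C 494 from rfl,
      E8X.ex_mul (by norm_num), E8X.ex_mul (by norm_num), E8X.ex_mul (by norm_num), E8X.ex_pow (by norm_num),
      E8X.ex_pow (by norm_num), E8X.ex_pow (by norm_num), E8X.ex_pow (by norm_num),
      E8X.ex_ofNat (by norm_num), E8X.ex_ofNat (by norm_num), ex_r, ← S]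
  ring

/-- `Δ` -/
theorem Dl_sr : Dl = s ^ 6 * r * (1 - 11 * r - r ^ 2) ^ 5 := by
  rw [Dl_eq]
  have h1 : (s * (1 - 11 * r - r ^ 2)) ^ 5 * ex 5 E ^ 5 = E ^ 25 := by
    rw [← mul_pow, h1_E5]
    ring
  refine mul_right_cancel₀ E_ne ?_
  linear_combination (-X) * h1 - (s * (1 - 11 * r - r ^ 2)) ^ 5 * sr_E

end T5X
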