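import Pool.Agent.T5X.A8

/-!
# [T5X-A9] `E₆ = s³ (1 - 522 r - 10005 r² - 10005 r⁴ + 522 r⁵ + r⁶)`
-/

set_option autoImplicit false

open PowerSeries
open N19 (ex)
open NC11 (D Ev)
open E8X (Sg Dl F3Cl J)

namespace T5X

theorem Sg_zero (k : ℕ) : constantCoeff (Sg k) = 0 := by
  rw [← coeff_zero_eq_constantCoeff_apply, E8X.coeff_zero_Sg]

theorem one_X (B : PowerSeries ℤ) : coeff 1 (X * B) = constantCoeff B := by
  rw [show (1 : ℕ) = 0 + 1 from rfl, coeff_succ_X_mul, coeff_zero_eq_constantCoeff_apply]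

theorem Q3_R2 : Q ^ 3 - R ^ 2 = 1728 * Dl := by
  have h4 := E8X.eis_ev (k := 4) (by norm_num) ⟨2, rfl⟩ 240 1 (by norm_num) (by exact E8X.bern4)
  have h4' : (C 1 + C 240 * E8X.Sg (4 - 1) : PowerSeries ℤ) = Q := rfl
  rw [h4'] at h4
  have hb : (2 * (6 : ℕ) / bernoulli 6 : ℚ) = -(-504 : ℤ) / (1 : ℤ) := by
    rw [show bernoulli 6 = 1 / 42 by decide +kernel]
    norm_num
  have h6 := E8X.eis_ev (k := 6) (by norm_num) ⟨3, rfl⟩ (-504) 1 (by norm_num) (by exact hb)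
  have hm : (C (-504) : PowerSeries ℤ) = -504 := by
    rw [map_neg]
    rfl
  have h6' : (C 1 + C (-504) * E8X.Sg (6 - 1) : PowerSeries ℤ) = R := by
    rw [hm, R]
    have : (C 1 : PowerSeries ℤ) = 1 := rfl
    rw [this]
    ring
  rw [h6'] at h6
  have h := (h4.pow 3).sub (h6.pow 2)
  have h7 := E8X.cusp_twelve h (by
    rw [coeff_zero_eq_constantCoeff_apply, Q, R]
    simp [Sg_zero]) (by
    intro z hz
    rw [E8X.eis_S _ hz, E8X.eis_S _ hz]
    push_cast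
    ring)
  have h8 : coeff 1 (Q ^ 3 - R ^ 2) = 1728 := by
    obtain ⟨A, hA⟩ : (X : PowerSeries ℤ) ∣ Sg 3 := by
      rw [PowerSeries.X_dvd_iff, Sg_zero]
    have hA0 : constantCoeff A = 1 := by
      have := E8X.coeff_one_Sg 3
      rw [hA, show (1 : ℕ) = 0 + 1 from rfl, coeff_succ_X_mul, coeff_zero_eq_constantCoeff_apply] at this
      exact this
    obtain ⟨B, hB⟩ : (X : PowerSeries ℤ) ∣ Sg 5 := by
      rw [PowerSeries.X_dvd_iff, Sg_zero]
    have hB0 : constantCoeff B = 1 := by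
      have := E8X.coeff_one_Sg 5
      rw [hB, show (1 : ℕ) = 0 + 1 from rfl, coeff_succ_X_mul, coeff_zero_eq_constantCoeff_apply] at this
      exact this
    have e : Q ^ 3 - R ^ 2 = X * (3 * (240 * A) + 3 * X * (240 * A) ^ 2 + X ^ 2 * (240 * A) ^ 3 + 2 * (504 * B) -
        X * (504 * B) ^ 2) := by
      rw [Q, R, hA, hB]
      ring
    rw [e, one_X]
    simp only [map_add, map_sub, map_mul, map_pow, constantCoeff_X, hA0, hB0]
    have k3 : constantCoeff (3 : PowerSeries ℤ) = 3 := rfl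
    have k2 : constantCoeff (2 : PowerSeries ℤ) = 2 := rfl
    have k240 : constantCoeff (240 : PowerSeries ℤ) = 240 := rfl
    have k504 : constantCoeff (504 : PowerSeries ℤ) = 504 := rfl
    rw [k3, k2, k240, k504]
    norm_num
  rw [h7, h8]
  rfl

/-- `E₆` -/
theorem R_eq : R = s ^ 3 * (1 - 522 * r - 10005 * r ^ 2 - 10005 * r ^ 4 + 522 * r ^ 5 + r ^ 6) := by
  have h1 := Q3_R2
  rw [Q_eq, Dl_sr] at h1
  have h2 : (R - s ^ 3 * (1 - 522 * r - 10005 * r ^ 2 - 10005 * r ^ 4 + 522 * r ^ 5 + r ^ 6)) *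
      (R + s ^ 3 * (1 - 522 * r - 10005 * r ^ 2 - 10005 * r ^ 4 + 522 * r ^ 5 + r ^ 6)) = 0 := by
    linear_combination -h1
  rcases mul_eq_zero.1 h2 with h3 | h3
  · exact sub_eq_zero.1 h3
  · exfalso
    have h4 := congrArg (constantCoeff (R := ℤ)) h3
    rw [R] at h4
    simp only [map_add, map_sub, map_mul, map_pow, s_zero, r_zero, map_one, map_zero, Sg_zero] at h4
    norm_num at h4

end T5X
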