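import Pool.Agent.T5X.A9

/-!
# [T5X-B1] the parts with exponents `4` modulo `5`
-/

set_option autoImplicit false

open PowerSeries
open N19 (ex)
open NC11 (D Ev)
open E8X (Sg Dl F3Cl J)

namespace T5X


/-- the part with exponents `4` modulo `5` -/
noncomputable def cl4 (f : PowerSeries ℤ) : PowerSeries ℤ := mk fun n => if n % 5 = 4 then coeff n f else 0

theorem cl4_coeff {n : ℕ} (hn : n % 5 = 4) (f : PowerSeries ℤ) : coeff n (cl4 f) = coeff n f := by
  rw [cl4, coeff_mk, if_pos hn]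

theorem cl4_self {f : PowerSeries ℤ} (hf : F3Cl 5 4 f) : cl4 f = f := by
  ext n
  rw [cl4, coeff_mk]
  split_ifs with h
  · rfl
  · rw [hf n (by omega)]

theorem cl4_zero {f : PowerSeries ℤ} {i : ℕ} (hf : F3Cl 5 i f) (hi : i % 5 ≠ 4) : cl4 f = 0 := by
  ext n
  rw [cl4, coeff_mk, map_zero]
  split_ifs with h
  · exact hf n (by omega)
  · rfl

theorem cl4_add (f g : PowerSeries ℤ) : cl4 (f + g) = cl4 f + cl4 g := by
  ext n
  simp only [cl4, coeff_mk, map_add]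
  split_ifs <;> ring

theorem cl4_neg (f : PowerSeries ℤ) : cl4 (-f) = - cl4 f := by
  ext n
  simp only [cl4, coeff_mk, map_neg]
  split_ifs <;> ring

theorem cl4_sub (f g : PowerSeries ℤ) : cl4 (f - g) = cl4 f - cl4 g := by
  rw [sub_eq_add_neg, cl4_add, cl4_neg, ← sub_eq_add_neg]

theorem cl4_C (c : ℤ) (f : PowerSeries ℤ) : cl4 (C c * f) = C c * cl4 f := by
  ext n
  simp only [cl4, coeff_mk, coeff_C_mul]
  split_ifs <;> ring

theorem cl4_mul {f : PowerSeries ℤ} (hf : F3Cl 5 0 f) (g : PowerSeries ℤ) : cl4 (f * g) = f * cl4 g := by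
  ext n
  rw [cl4, coeff_mk, coeff_mul, coeff_mul]
  by_cases h : n % 5 = 4
  · rw [if_pos h]
    refine Finset.sum_congr rfl fun p hp => ?_
    rw [Finset.HasAntidiagonal.mem_antidiagonal] at hp
    by_cases h1 : p.1 % 5 = 0
    · rw [cl4, coeff_mk, if_pos (by omega)]
    · rw [hf p.1 (by omega), zero_mul, zero_mul]
  · rw [if_neg h]
    symm
    refine Finset.sum_eq_zero fun p hp => ?_
    rw [Finset.HasAntidiagonal.mem_antidiagonal] at hp
    by_cases h1 : p.1 % 5 = 0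
    · rw [cl4, coeff_mk, if_neg (by omega), mul_zero]
    · rw [hf p.1 (by omega), zero_mul]

theorem cl_Sp (k : ℕ) : F3Cl 5 0 (S ^ k) := (cl_S.pow k).congr (by norm_num)

theorem ab_poly : At * Bt = C (1) * t ^ 1 + C (1) * t ^ 2 + C (2) * t ^ 3 + C (3) * t ^ 4 + C (5) * t ^ 5 + C (-3) * t ^ 6 + C (2) * t ^ 7 + C (-1) * t ^ 8 + C (1) * t ^ 9 := by
  rw [At, Bt]
  simp only [map_neg, map_one, show (C 2 : PowerSeries ℤ) = 2 from rfl, show (C 3 : PowerSeries ℤ) = 3 from rfl, show (C 5 : PowerSeries ℤ) = 5 from rfl]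
  ring

theorem ab_cl4 : cl4 (At * Bt) = C (3) * t ^ 4 + C (1) * t ^ 9 := by
  rw [ab_poly]
  simp only [cl4_add, cl4_C]
  rw [cl4_zero (cl_tp 1) (by norm_num), cl4_zero (cl_tp 2) (by norm_num), cl4_zero (cl_tp 3) (by norm_num), cl4_zero (cl_tp 5) (by norm_num), cl4_zero (cl_tp 6) (by norm_num), cl4_zero (cl_tp 7) (by norm_num), cl4_zero (cl_tp 8) (by norm_num), cl4_self ((cl_tp 4).congr (by norm_num)), cl4_self ((cl_tp 9).congr (by norm_num))]
  ring

theorem aabb_poly : At ^ 2 + Bt ^ 2 = C (1) * t ^ 0 + C (6) * t ^ 1 + C (18) * t ^ 2 + C (24) * t ^ 3 + C (42) * t ^ 4 + C (42) * t ^ 6 + C (-24) * t ^ 7 + C (18) * t ^ 8 + C (-6) * t ^ 9 + C (1) * t ^ 10 := by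
  rw [At, Bt]
  simp only [map_neg, map_one, show (C 6 : PowerSeries ℤ) = 6 from rfl, show (C 18 : PowerSeries ℤ) = 18 from rfl, show (C 24 : PowerSeries ℤ) = 24 from rfl, show (C 42 : PowerSeries ℤ) = 42 from rfl]
  ring

theorem aabb_cl4 : cl4 (At ^ 2 + Bt ^ 2) = C (42) * t ^ 4 + C (-6) * t ^ 9 := by
  rw [aabb_poly]
  simp only [cl4_add, cl4_C]
  rw [cl4_zero (cl_tp 0) (by norm_num), cl4_zero (cl_tp 1) (by norm_num), cl4_zero (cl_tp 2) (by norm_num), cl4_zero (cl_tp 3) (by norm_num), cl4_zero (cl_tp 6) (by norm_num), cl4_zero (cl_tp 7) (by norm_num), cl4_zero (cl_tp 8) (by norm_num), cl4_zero (cl_tp 10) (by norm_num), cl4_self ((cl_tp 4).congr (by norm_num)), cl4_self ((cl_tp 9).congr (by norm_num))]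
  ring


theorem Cc_eq : Cc = s * r := by
  refine mul_right_cancel₀ E_ne ?_
  rw [sr_E, Cc]
  linear_combination (X * ex 5 E ^ 5) * iv_mul E_zero

theorem cl4_Cc : cl4 Cc = S * (3 * t ^ 4 + t ^ 9) := by
  rw [Cc_eq, sr_eq, cl4_mul cl_S, ab_cl4, map_one, show (C 3 : PowerSeries ℤ) = 3 from rfl]
  ring

theorem six_ne : (6 : PowerSeries ℤ) ≠ 0 := by
  intro h
  have := congrArg (constantCoeff (R := ℤ)) h
  rw [show (6 : PowerSeries ℤ) = C 6 from rfl, constantCoeff_C, map_zero] at this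
  norm_num at this

theorem cl4_S1 : cl4 (Sg 1) = S * (7 * t ^ 4 - t ^ 9) := by
  have h1 : C 6 * Sg 1 = S * (At ^ 2 + Bt ^ 2) - C 1 + C 30 * ex 5 (Sg 1) := by
    have h := M_eq
    rw [M] at h
    rw [map_one, show (C 6 : PowerSeries ℤ) = 6 from rfl, show (C 30 : PowerSeries ℤ) = 30 from rfl]
    linear_combination h + ssum
  have h2 := congrArg cl4 h1
  rw [cl4_add, cl4_sub, cl4_C, cl4_C, cl4_mul cl_S, aabb_cl4, cl4_zero (cl_const 1) (by norm_num),
    cl4_zero (cl_ex5 (Sg 1)) (by norm_num), show (C 6 : PowerSeries ℤ) = 6 from rfl,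
    map_neg, show (C 6 : PowerSeries ℤ) = 6 from rfl, show (C 42 : PowerSeries ℤ) = 42 from rfl] at h2
  refine mul_left_cancel₀ six_ne ?_
  rw [h2]
  ring

end T5X
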