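import Pool.Agent.T5X.B1

/-!
# [T5X-B2] class 4 of `Δ` and of `∑ σ₅(n) X^n`
-/

set_option autoImplicit false

open PowerSeries
open N19 (ex)
open NC11 (D Ev)
open E8X (Sg Dl F3Cl J)

namespace T5X

theorem Ht_24 : s ^ 6 * r * (1 - 11 * r - r ^ 2) ^ 5 = (S ^ 6 * Ht) * (t * (1 - t - t ^ 2) ^ 24) := by
  have h1 := sr_eq
  have h2 := h1_eq
  have e : s ^ 6 * r * (1 - 11 * r - r ^ 2) ^ 5 = (s * r) * (s * (1 - 11 * r - r ^ 2)) ^ 5 := by ring
  rw [e, h1, h2, AB_La, ← La_mul]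
  ring

theorem cl_SH (k : ℕ) : F3Cl 5 0 (S ^ k * Ht) := ((cl_Sp k).mul cl_Ht).congr (by norm_num)

theorem l24_poly : t * (1 - t - t ^ 2) ^ 24 = C (1) * t ^ 1 + C (-24) * t ^ 2 + C (252) * t ^ 3 + C (-1472) * t ^ 4 + C (4830) * t ^ 5 + C (-6072) * t ^ 6 + C (-16192) * t ^ 7 + C (78936) * t ^ 8 + C (-82731) * t ^ 9 + C (-212520) * t ^ 10 + C (649704) * t ^ 11 + C (-73416) * t ^ 12 + C (-1977862) * t ^ 13 + C (2034672) * t ^ 14 + C (3487260) * t ^ 15 + C (-7072408) * t ^ 16 + C (-3432198) * t ^ 17 + C (15343944) * t ^ 18 + C (134596) * t ^ 19 + C (-25077360) * t ^ 20 + C (6067446) * t ^ 21 + C (33474936) * t ^ 22 + C (-12286968) * t ^ 23 + C (-38228232) * t ^ 24 + C (14903725) * t ^ 25 + C (38228232) * t ^ 26 + C (-12286968) * t ^ 27 + C (-33474936) * t ^ 28 + C (6067446) * t ^ 29 + C (25077360) * t ^ 30 + C (134596) * t ^ 31 + C (-15343944) * t ^ 32 + C (-3432198) * t ^ 33 + C (7072408) * t ^ 34 + C (3487260) * t ^ 35 + C (-2034672)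 * t ^ 36 + C (-1977862) * t ^ 37 + C (73416) * t ^ 38 + C (649704) * t ^ 39 + C (212520) * t ^ 40 + C (-82731) * t ^ 41 + C (-78936) * t ^ 42 + C (-16192) * t ^ 43 + C (6072) * t ^ 44 + C (4830) * t ^ 45 + C (1472) * t ^ 46 + C (252) * t ^ 47 + C (24) * t ^ 48 + C (1) * t ^ 49 := by
  simp only [map_neg, map_one, show (C 24 : PowerSeries ℤ) = 24 from rfl, show (C 252 : PowerSeries ℤ) = 252 from rfl, show (C 1472 : PowerSeries ℤ) = 1472 from rfl, show (C 4830 : PowerSeries ℤ) = 4830 from rfl, show (C 6072 : PowerSeries ℤ) = 6072 from rfl, show (C 16192 : PowerSeries ℤ) = 16192 from rfl, show (C 73416 : PowerSeries ℤ) = 73416 from rfl, show (C 78936 : PowerSeries ℤ) = 78936 from rfl, show (C 82731 : PowerSeries ℤ) = 82731 from rfl, show (C 134596 : PowerSeries ℤ) = 134596 from rfl, show (C 212520 : PowerSeries ℤ) = 212520 from rfl, show (C 649704 : PowerSeries ℤ) = 649704 from rfl, show (C 1977862 : PowerSeries ℤ) = 1977862 from rfl,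 show (C 2034672 : PowerSeries ℤ) = 2034672 from rfl, show (C 3432198 : PowerSeries ℤ) = 3432198 from rfl, show (C 3487260 : PowerSeries ℤ) = 3487260 from rfl, show (C 6067446 : PowerSeries ℤ) = 6067446 from rfl, show (C 7072408 : PowerSeries ℤ) = 7072408 from rfl, show (C 12286968 : PowerSeries ℤ) = 12286968 from rfl, show (C 14903725 : PowerSeries ℤ) = 14903725 from rfl, show (C 15343944 : PowerSeries ℤ) = 15343944 from rfl, show (C 25077360 : PowerSeries ℤ) = 25077360 from rfl, show (C 33474936 : PowerSeries ℤ) = 33474936 from rfl, show (C 38228232 : PowerSeries ℤ) = 38228232 from rfl]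
  ring

theorem l24_cl4 : cl4 (t * (1 - t - t ^ 2) ^ 24) = C (-1472) * t ^ 4 + C (-82731) * t ^ 9 + C (2034672) * t ^ 14 + C (134596) * t ^ 19 + C (-38228232) * t ^ 24 + C (6067446) * t ^ 29 + C (7072408) * t ^ 34 + C (649704) * t ^ 39 + C (6072) * t ^ 44 + C (1) * t ^ 49 := by
  rw [l24_poly]
  simp only [cl4_add, cl4_C]
  rw [cl4_zero (cl_tp 1) (by norm_num), cl4_zero (cl_tp 2) (by norm_num), cl4_zero (cl_tp 3) (by norm_num), cl4_zero (cl_tp 5) (by norm_num), cl4_zero (cl_tp 6) (by norm_num), cl4_zero (cl_tp 7) (by norm_num), cl4_zero (cl_tp 8) (by norm_num), cl4_zero (cl_tp 10) (by norm_num), cl4_zero (cl_tp 11) (by norm_num), cl4_zero (cl_tp 12) (by norm_num), cl4_zero (cl_tp 13) (by norm_num), cl4_zero (cl_tp 15) (by norm_num), cl4_zero (cl_tp 16) (by norm_num), cl4_zero (cl_tp 17) (by norm_num), cl4_zero (cl_tp 18) (by norm_num), cl4_zero (cl_tp 20) (by norm_num), cl4_zero (cl_tp 21) (by norm_num), cl4_zero (cl_tp 22) (by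 norm_num), cl4_zero (cl_tp 23) (by norm_num), cl4_zero (cl_tp 25) (by norm_num), cl4_zero (cl_tp 26) (by norm_num), cl4_zero (cl_tp 27) (by norm_num), cl4_zero (cl_tp 28) (by norm_num), cl4_zero (cl_tp 30) (by norm_num), cl4_zero (cl_tp 31) (by norm_num), cl4_zero (cl_tp 32) (by norm_num), cl4_zero (cl_tp 33) (by norm_num), cl4_zero (cl_tp 35) (by norm_num), cl4_zero (cl_tp 36) (by norm_num), cl4_zero (cl_tp 37) (by norm_num), cl4_zero (cl_tp 38) (by norm_num), cl4_zero (cl_tp 40) (by norm_num), cl4_zero (cl_tp 41) (by norm_num), cl4_zero (cl_tp 42) (by norm_num), cl4_zero (cl_tp 43) (by norm_num), cl4_zero (cl_tp 45) (by norm_num), cl4_zero (cl_tp 46) (by norm_num), cl4_zero (cl_tp 47) (by norm_num), cl4_zero (cl_tp 48) (by norm_num), cl4_self ((cl_tp 4).congr (by norm_num)), cl4_self ((cl_tp 9).congr (by norm_num)), cl4_self ((cl_tp 14).congr (by norm_num)), cl4_self ((cl_tp 19).congr (by norm_num)), cl4_self ((cl_tp 24).congr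 (by norm_num)), cl4_self ((cl_tp 29).congr (by norm_num)), cl4_self ((cl_tp 34).congr (by norm_num)), cl4_self ((cl_tp 39).congr (by norm_num)), cl4_self ((cl_tp 44).congr (by norm_num)), cl4_self ((cl_tp 49).congr (by norm_num))]
  ring

theorem cl4_Dl : cl4 Dl = S ^ 6 * ((-1472) * t ^ 4 + (-66539) * t ^ 9 + (2946185) * t ^ 14 + (-22164065) * t ^ 19 + (-41743460) * t ^ 24 + (426443402) * t ^ 29 + (-21441266) * t ^ 34 + (-83214230) * t ^ 39 + (-14213080) * t ^ 44 + (-716495) * t ^ 49 + (-6083) * t ^ 54 + (-1) * t ^ 59) := by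
  rw [Dl_sr, Ht_24, cl4_mul (cl_SH 6), l24_cl4, Ht]
  simp only [map_neg, map_one, show (C 1472 : PowerSeries ℤ) = 1472 from rfl, show (C 6072 : PowerSeries ℤ) = 6072 from rfl, show (C 82731 : PowerSeries ℤ) = 82731 from rfl, show (C 134596 : PowerSeries ℤ) = 134596 from rfl, show (C 649704 : PowerSeries ℤ) = 649704 from rfl, show (C 2034672 : PowerSeries ℤ) = 2034672 from rfl, show (C 6067446 : PowerSeries ℤ) = 6067446 from rfl, show (C 7072408 : PowerSeries ℤ) = 7072408 from rfl, show (C 38228232 : PowerSeries ℤ) = 38228232 from rfl]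
  ring

theorem r30_poly : At ^ 6 - 522 * (At ^ 5 * Bt) - 10005 * (At ^ 4 * Bt ^ 2) - 10005 * (At ^ 2 * Bt ^ 4) + 522 * (At * Bt ^ 5) + Bt ^ 6 = C (1) * t ^ 0 + C (-504) * t ^ 1 + C (-16632) * t ^ 2 + C (-122976) * t ^ 3 + C (-532728) * t ^ 4 + C (-1575522) * t ^ 5 + C (-4049640) * t ^ 6 + C (-8205120) * t ^ 7 + C (-15203160) * t ^ 8 + C (-22425480) * t ^ 9 + C (-31510005) * t ^ 10 + C (-32502960) * t ^ 11 + C (-37633680) * t ^ 12 + C (-21450240) * t ^ 13 + C (-26046720) * t ^ 14 + C (-26046720) * t ^ 16 + C (21450240) * t ^ 17 + C (-37633680) * t ^ 18 + C (32502960) * t ^ 19 + C (-31510005) * t ^ 20 + C (22425480) * t ^ 21 + C (-15203160) * t ^ 22 + C (8205120) * t ^ 23 + C (-4049640) * t ^ 24 + C (1575522) * t ^ 25 + C (-532728) * t ^ 26 + C (122976) * t ^ 27 + C (-16632) * t ^ 28 + C (504) * t ^ 29 + C (1) * t ^ 30 := by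
  rw [At, Bt]
  simp only [map_neg, map_one, show (C 504 : PowerSeries ℤ) = 504 from rfl, show (C 16632 : PowerSeries ℤ) = 16632 from rfl, show (C 122976 : PowerSeries ℤ) = 122976 from rfl, show (C 532728 : PowerSeries ℤ) = 532728 from rfl, show (C 1575522 : PowerSeries ℤ) = 1575522 from rfl, show (C 4049640 : PowerSeries ℤ) = 4049640 from rfl, show (C 8205120 : PowerSeries ℤ) = 8205120 from rfl, show (C 15203160 : PowerSeries ℤ) = 15203160 from rfl, show (C 21450240 : PowerSeries ℤ) = 21450240 from rfl, show (C 22425480 : PowerSeries ℤ) = 22425480 from rfl, show (C 26046720 : PowerSeries ℤ) = 26046720 from rfl, show (C 31510005 : PowerSeries ℤ) = 31510005 from rfl, show (C 32502960 : PowerSeries ℤ) = 32502960 from rfl, show (C 37633680 : PowerSeries ℤ) = 37633680 from rfl]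
  ring

theorem r30_cl4 : cl4 (At ^ 6 - 522 * (At ^ 5 * Bt) - 10005 * (At ^ 4 * Bt ^ 2) - 10005 * (At ^ 2 * Bt ^ 4) + 522 * (At * Bt ^ 5) + Bt ^ 6) = C (-532728) * t ^ 4 + C (-22425480) * t ^ 9 + C (-26046720) * t ^ 14 + C (32502960) * t ^ 19 + C (-4049640) * t ^ 24 + C (504) * t ^ 29 := by
  rw [r30_poly]
  simp only [cl4_add, cl4_C]
  rw [cl4_zero (cl_tp 0) (by norm_num), cl4_zero (cl_tp 1) (by norm_num), cl4_zero (cl_tp 2) (by norm_num), cl4_zero (cl_tp 3) (by norm_num), cl4_zero (cl_tp 5) (by norm_num), cl4_zero (cl_tp 6) (by norm_num), cl4_zero (cl_tp 7) (by norm_num), cl4_zero (cl_tp 8) (by norm_num), cl4_zero (cl_tp 10) (by norm_num), cl4_zero (cl_tp 11) (by norm_num), cl4_zero (cl_tp 12) (by norm_num), cl4_zero (cl_tp 13) (by norm_num), cl4_zero (cl_tp 16) (by norm_num), cl4_zero (cl_tp 17) (by norm_num), cl4_zero (cl_tp 18) (by norm_num), cl4_zero (cl_tp 20) (by norm_num), cl4_zero (cl_tp 21) (by norm_num), cl4_zero (cl_tp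 22) (by norm_num), cl4_zero (cl_tp 23) (by norm_num), cl4_zero (cl_tp 25) (by norm_num), cl4_zero (cl_tp 26) (by norm_num), cl4_zero (cl_tp 27) (by norm_num), cl4_zero (cl_tp 28) (by norm_num), cl4_zero (cl_tp 30) (by norm_num), cl4_self ((cl_tp 4).congr (by norm_num)), cl4_self ((cl_tp 9).congr (by norm_num)), cl4_self ((cl_tp 14).congr (by norm_num)), cl4_self ((cl_tp 19).congr (by norm_num)), cl4_self ((cl_tp 24).congr (by norm_num)), cl4_self ((cl_tp 29).congr (by norm_num))]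
  ring

theorem n504_ne : (-504 : PowerSeries ℤ) ≠ 0 := by
  intro h
  have := congrArg (constantCoeff (R := ℤ)) h
  rw [show (-504 : PowerSeries ℤ) = -C 504 from rfl, map_neg, constantCoeff_C, map_zero] at this
  norm_num at this

theorem cl4_S5 : cl4 (Sg 5) = S ^ 3 * ((1057) * t ^ 4 + (44495) * t ^ 9 + (51680) * t ^ 14 + (-64490) * t ^ 19 + (8035) * t ^ 24 + (-1) * t ^ 29) := by
  have h1 : C (-504) * Sg 5 = S ^ 3 * (At ^ 6 - 522 * (At ^ 5 * Bt) - 10005 * (At ^ 4 * Bt ^ 2) -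
      10005 * (At ^ 2 * Bt ^ 4) + 522 * (At * Bt ^ 5) + Bt ^ 6) - C 1 := by
    have h := R_eq
    have h0 := s_eq
    have h3 := sr_eq
    have h4 := sr2_eq
    have e : s ^ 3 * (1 - 522 * r - 10005 * r ^ 2 - 10005 * r ^ 4 + 522 * r ^ 5 + r ^ 6) =
        s ^ 3 - 522 * (s ^ 2 * (s * r)) - 10005 * (s ^ 2 * (s * r ^ 2)) - 10005 * (s * (s * r ^ 2) ^ 2) +
          522 * ((s * r) * (s * r ^ 2) ^ 2) + (s * r ^ 2) ^ 3 := by ring
    rw [e, h3, h4, h0, R] at h
    rw [map_neg, map_one, show (C 504 : PowerSeries ℤ) = 504 from rfl]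
    linear_combination h
  have h2 := congrArg cl4 h1
  rw [cl4_sub, cl4_C, cl4_mul (cl_Sp 3), r30_cl4, cl4_zero (cl_const 1) (by norm_num)] at h2
  simp only [map_neg, map_one, show (C 504 : PowerSeries ℤ) = 504 from rfl, show (C 532728 : PowerSeries ℤ) = 532728 from rfl, show (C 4049640 : PowerSeries ℤ) = 4049640 from rfl, show (C 22425480 : PowerSeries ℤ) = 22425480 from rfl, show (C 26046720 : PowerSeries ℤ) = 26046720 from rfl, show (C 32502960 : PowerSeries ℤ) = 32502960 from rfl] at h2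
  refine mul_left_cancel₀ n504_ne ?_
  rw [h2]
  ring

end T5X
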