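import Pool.Agent.T5X.B2

/-!
# [T5X-B3] class 4 of `∑ σ₁₁(n) X^n`
-/

set_option autoImplicit false

open PowerSeries
open N19 (ex)
open NC11 (D Ev)
open E8X (Sg Dl F3Cl J)

namespace T5X

/-- `E₄ = S² q20` -/
noncomputable def q20 : PowerSeries ℤ := (1) * t ^ 0 + (240) * t ^ 1 + (2160) * t ^ 2 + (6720) * t ^ 3 + (17520) * t ^ 4 + (30228) * t ^ 5 + (57840) * t ^ 6 + (60960) * t ^ 7 + (79920) * t ^ 8 + (41520) * t ^ 9 + (60494) * t ^ 10 + (-41520) * t ^ 11 + (79920) * t ^ 12 + (-60960) * t ^ 13 + (57840) * t ^ 14 + (-30228) * t ^ 15 + (17520) * t ^ 16 + (-6720) * t ^ 17 + (2160) * t ^ 18 + (-240) * t ^ 19 + (1) * t ^ 20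

theorem Q_q20 : Q = S ^ 2 * q20 := by
  have h0 := s_eq
  have h3 := sr_eq
  have h4 := sr2_eq
  have e : s ^ 2 * (1 + 228 * r + 494 * r ^ 2 - 228 * r ^ 3 + r ^ 4) =
      s ^ 2 + 228 * (s * (s * r)) + 494 * (s * r) ^ 2 - 228 * ((s * r) * (s * r ^ 2)) + (s * r ^ 2) ^ 2 := by ring
  rw [Q_eq, e, h3, h4, h0, q20, At, Bt]
  ring

theorem q3_poly : q20 ^ 3 = C (1) * t ^ 0 + C (720) * t ^ 1 + C (179280) * t ^ 2 + C (16954560) * t ^ 3 + C (396974160) * t ^ 4 + C (4632858684) * t ^ 5 + C (34413276240) * t ^ 6 + C (187471784160) * t ^ 7 + C (814381099920) * t ^ 8 + C (2962766491920) * t ^ 9 + C (9342849217434) * t ^ 10 + C (26020932116400) * t ^ 11 + C (65049185451600) * t ^ 12 + C (147118853095200) * t ^ 13 + C (303967517533200) * t ^ 14 + C (575043543917460) * t ^ 15 + C (1002984758672400) * t ^ 16 + C (1610081341329600) * t ^ 17 + C (2395443512797200) * t ^ 18 + C (3280625380393200) * t ^ 19 + C (4181520028740495) * t ^ 20 + C (4883469903885600) * t ^ 21 + C (5358786672938400) * t ^ 22 + C (5310792918892800)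 * t ^ 23 + C (5123002020688800) * t ^ 24 + C (4257381460869144) * t ^ 25 + C (3909722667288480) * t ^ 26 + C (2533337409395520) * t ^ 27 + C (2849862560171040) * t ^ 28 + C (827344364545440) * t ^ 29 + C (2492097171100076) * t ^ 30 + C (-827344364545440) * t ^ 31 + C (2849862560171040) * t ^ 32 + C (-2533337409395520) * t ^ 33 + C (3909722667288480) * t ^ 34 + C (-4257381460869144) * t ^ 35 + C (5123002020688800) * t ^ 36 + C (-5310792918892800) * t ^ 37 + C (5358786672938400) * t ^ 38 + C (-4883469903885600) * t ^ 39 + C (4181520028740495) * t ^ 40 + C (-3280625380393200) * t ^ 41 + C (2395443512797200) * t ^ 42 + C (-1610081341329600) * t ^ 43 + C (1002984758672400) * t ^ 44 + C (-575043543917460) * t ^ 45 + C (303967517533200) * t ^ 46 + C (-147118853095200) * t ^ 47 + C (65049185451600) * t ^ 48 + C (-26020932116400) * t ^ 49 + C (9342849217434) * t ^ 50 + C (-2962766491920) * t ^ 51 + C (814381099920) * t ^ 52 + C (-187471784160) * t ^ 53 + C (34413276240) * t ^ 54 + C (-4632858684) * t ^ 55 + C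 (396974160) * t ^ 56 + C (-16954560) * t ^ 57 + C (179280) * t ^ 58 + C (-720) * t ^ 59 + C (1) * t ^ 60 := by
  rw [q20]
  simp only [map_neg, map_one, show (C 720 : PowerSeries ℤ) = 720 from rfl, show (C 179280 : PowerSeries ℤ) = 179280 from rfl, show (C 16954560 : PowerSeries ℤ) = 16954560 from rfl, show (C 396974160 : PowerSeries ℤ) = 396974160 from rfl, show (C 4632858684 : PowerSeries ℤ) = 4632858684 from rfl, show (C 34413276240 : PowerSeries ℤ) = 34413276240 from rfl, show (C 187471784160 : PowerSeries ℤ) = 187471784160 from rfl, show (C 814381099920 : PowerSeries ℤ) = 814381099920 from rfl, show (C 2962766491920 : PowerSeries ℤ) = 2962766491920 from rfl, show (C 9342849217434 : PowerSeries ℤ) = 9342849217434 from rfl, show (C 26020932116400 : PowerSeries ℤ) = 26020932116400 from rfl, show (C 65049185451600 : PowerSeries ℤ) = 65049185451600 from rfl, show (C 147118853095200 : PowerSeries ℤ) = 147118853095200 from rfl, show (C 303967517533200 : PowerSeries ℤ) = 303967517533200 from rfl, show (C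 575043543917460 : PowerSeries ℤ) = 575043543917460 from rfl, show (C 827344364545440 : PowerSeries ℤ) = 827344364545440 from rfl, show (C 1002984758672400 : PowerSeries ℤ) = 1002984758672400 from rfl, show (C 1610081341329600 : PowerSeries ℤ) = 1610081341329600 from rfl, show (C 2395443512797200 : PowerSeries ℤ) = 2395443512797200 from rfl, show (C 2492097171100076 : PowerSeries ℤ) = 2492097171100076 from rfl, show (C 2533337409395520 : PowerSeries ℤ) = 2533337409395520 from rfl, show (C 2849862560171040 : PowerSeries ℤ) = 2849862560171040 from rfl, show (C 3280625380393200 : PowerSeries ℤ) = 3280625380393200 from rfl, show (C 3909722667288480 : PowerSeries ℤ) = 3909722667288480 from rfl, show (C 4181520028740495 : PowerSeries ℤ) = 4181520028740495 from rfl, show (C 4257381460869144 : PowerSeries ℤ) = 4257381460869144 from rfl, show (C 4883469903885600 : PowerSeries ℤ) = 4883469903885600 from rfl, show (C 5123002020688800 : PowerSeries ℤ) = 5123002020688800 from rfl, show (C 5310792918892800 : PowerSeries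 ℤ) = 5310792918892800 from rfl, show (C 5358786672938400 : PowerSeries ℤ) = 5358786672938400 from rfl]
  ring

theorem q3_cl4 : cl4 (q20 ^ 3) = C (396974160) * t ^ 4 + C (2962766491920) * t ^ 9 + C (303967517533200) * t ^ 14 + C (3280625380393200) * t ^ 19 + C (5123002020688800) * t ^ 24 + C (827344364545440) * t ^ 29 + C (3909722667288480) * t ^ 34 + C (-4883469903885600) * t ^ 39 + C (1002984758672400) * t ^ 44 + C (-26020932116400) * t ^ 49 + C (34413276240) * t ^ 54 + C (-720) * t ^ 59 := by
  rw [q3_poly]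
  simp only [cl4_add, cl4_C]
  rw [cl4_zero (cl_tp 0) (by norm_num), cl4_zero (cl_tp 1) (by norm_num), cl4_zero (cl_tp 2) (by norm_num), cl4_zero (cl_tp 3) (by norm_num), cl4_zero (cl_tp 5) (by norm_num), cl4_zero (cl_tp 6) (by norm_num), cl4_zero (cl_tp 7) (by norm_num), cl4_zero (cl_tp 8) (by norm_num), cl4_zero (cl_tp 10) (by norm_num), cl4_zero (cl_tp 11) (by norm_num), cl4_zero (cl_tp 12) (by norm_num), cl4_zero (cl_tp 13) (by norm_num), cl4_zero (cl_tp 15) (by norm_num), cl4_zero (cl_tp 16) (by norm_num), cl4_zero (cl_tp 17) (by norm_num), cl4_zero (cl_tp 18) (by norm_num), cl4_zero (cl_tp 20) (by norm_num), cl4_zero (cl_tp 21) (by norm_num), cl4_zero (cl_tp 22) (by norm_num), cl4_zero (cl_tp 23) (by norm_num), cl4_zero (cl_tp 25) (by norm_num), cl4_zero (cl_tp 26) (by norm_num), cl4_zero (cl_tp 27) (by norm_num), cl4_zero (cl_tp 28) (by norm_num), cl4_zero (cl_tp 30) (by norm_num), cl4_zero (cl_tp 31) (by norm_num), cl4_zero (cl_tp 32) (by norm_num), cl4_zero (cl_tp 33) (by norm_num), cl4_zero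 (cl_tp 35) (by norm_num), cl4_zero (cl_tp 36) (by norm_num), cl4_zero (cl_tp 37) (by norm_num), cl4_zero (cl_tp 38) (by norm_num), cl4_zero (cl_tp 40) (by norm_num), cl4_zero (cl_tp 41) (by norm_num), cl4_zero (cl_tp 42) (by norm_num), cl4_zero (cl_tp 43) (by norm_num), cl4_zero (cl_tp 45) (by norm_num), cl4_zero (cl_tp 46) (by norm_num), cl4_zero (cl_tp 47) (by norm_num), cl4_zero (cl_tp 48) (by norm_num), cl4_zero (cl_tp 50) (by norm_num), cl4_zero (cl_tp 51) (by norm_num), cl4_zero (cl_tp 52) (by norm_num), cl4_zero (cl_tp 53) (by norm_num), cl4_zero (cl_tp 55) (by norm_num), cl4_zero (cl_tp 56) (by norm_num), cl4_zero (cl_tp 57) (by norm_num), cl4_zero (cl_tp 58) (by norm_num), cl4_zero (cl_tp 60) (by norm_num), cl4_self ((cl_tp 4).congr (by norm_num)), cl4_self ((cl_tp 9).congr (by norm_num)), cl4_self ((cl_tp 14).congr (by norm_num)), cl4_self ((cl_tp 19).congr (by norm_num)), cl4_self ((cl_tp 24).congr (by norm_num)), cl4_self ((cl_tp 29).congr (by norm_num)), cl4_self ((cl_tp 34).congr (by norm_num)),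 cl4_self ((cl_tp 39).congr (by norm_num)), cl4_self ((cl_tp 44).congr (by norm_num)), cl4_self ((cl_tp 49).congr (by norm_num)), cl4_self ((cl_tp 54).congr (by norm_num)), cl4_self ((cl_tp 59).congr (by norm_num))]
  ring

theorem big_ne : (65520 : PowerSeries ℤ) ≠ 0 := by
  intro h
  have := congrArg (constantCoeff (R := ℤ)) h
  rw [show (65520 : PowerSeries ℤ) = C 65520 from rfl, constantCoeff_C, map_zero] at this
  norm_num at this

theorem cl4_S11 : cl4 (Sg 11) = S ^ 6 * ((4196353) * t ^ 4 + (31246953461) * t ^ 9 + (3205743007685) * t ^ 14 + (34598927239435) * t ^ 19 + (54029493734290) * t ^ 24 + (8722691275202) * t ^ 29 + (41233632871234) * t ^ 34 + (-51502468788730) * t ^ 39 + (10577970212045) * t ^ 44 + (-274422383495) * t ^ 49 + (362976217) * t ^ 54 + (-1) * t ^ 59) := by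
  have h1 : C 65520 * Sg 11 = C 691 * (S ^ 6 * q20 ^ 3) - C 432000 * Dl - C 691 := by
    have h := E8X.S11_eq
    have hQ := Q_q20
    rw [Q] at hQ
    rw [hQ] at h
    rw [show (C 65520 : PowerSeries ℤ) = 65520 from rfl, show (C 691 : PowerSeries ℤ) = 691 from rfl,
      show (C 432000 : PowerSeries ℤ) = 432000 from rfl]
    linear_combination h
  have h2 := congrArg cl4 h1
  rw [cl4_sub, cl4_sub, cl4_C, cl4_C, cl4_C, cl4_mul (cl_Sp 6), q3_cl4, cl4_Dl,
    cl4_zero (cl_const 691) (by norm_num)] at h2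
  simp only [map_neg, map_one, show (C 720 : PowerSeries ℤ) = 720 from rfl, show (C 396974160 : PowerSeries ℤ) = 396974160 from rfl, show (C 34413276240 : PowerSeries ℤ) = 34413276240 from rfl, show (C 2962766491920 : PowerSeries ℤ) = 2962766491920 from rfl, show (C 26020932116400 : PowerSeries ℤ) = 26020932116400 from rfl, show (C 303967517533200 : PowerSeries ℤ) = 303967517533200 from rfl, show (C 827344364545440 : PowerSeries ℤ) = 827344364545440 from rfl, show (C 1002984758672400 : PowerSeries ℤ) = 1002984758672400 from rfl, show (C 3280625380393200 : PowerSeries ℤ) = 3280625380393200 from rfl, show (C 3909722667288480 : PowerSeries ℤ) = 3909722667288480 from rfl, show (C 4883469903885600 : PowerSeries ℤ) = 4883469903885600 from rfl, show (C 5123002020688800 : PowerSeries ℤ) = 5123002020688800 from rfl, show (C 65520 : PowerSeries ℤ) = 65520 from rfl,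
    show (C 691 : PowerSeries ℤ) = 691 from rfl, show (C 432000 : PowerSeries ℤ) = 432000 from rfl] at h2
  refine mul_left_cancel₀ big_ne ?_
  rw [h2]
  ring

end T5X
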