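import Pool.Agent.T5X.B3

/-!
# [T5X-B4] the exact formula
-/

set_option autoImplicit false

open PowerSeries
open N19 (ex)
open NC11 (D Ev)
open E8X (Sg Dl F3Cl J tau)

namespace T5X

theorem h_eq : h = S * Ht := by
  have hne : ex 25 E ≠ 0 := ne_zero_of_one (ex_zero E_zero)
  have h1 : h * ex 25 E = ex 5 E ^ 5 := by
    rw [h]
    linear_combination (ex 5 E ^ 5) * iv_mul (ex_zero (k := 25) E_zero)
  have h2 : (S * Ht * ex 25 E) * ex 5 E = (ex 5 E ^ 5) * ex 5 E := by
    linear_combination (Ht * ex 25 E) * S_E5 + norm_E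
  have h3 := mul_right_cancel₀ E5_ne h2
  refine mul_right_cancel₀ hne ?_
  rw [h1, h3]

theorem Z_eq : Z = S * t ^ 5 := by
  rw [Z, Cc_eq, E8X.ex_mul (by norm_num), ex_r, S]

theorem cl_h : F3Cl 5 0 h := by
  rw [h_eq]
  exact (cl_S.mul cl_Ht).congr (by norm_num)

theorem cl_Z : F3Cl 5 0 Z := by
  rw [Z]
  exact cl_ex5 _

theorem cl_hZ (i j : ℕ) : F3Cl 5 0 (h ^ i * Z ^ j) := ((cl_h.pow i).mul (cl_Z.pow j)).congr (by simp)

/-- a term `(a ∑ σ(n) X^n + b C) h^i Z^j` -/
noncomputable def trm (a b : ℤ) (i j : ℕ) : PowerSeries ℤ := (C a * Sg 1 + C b * Cc) * h ^ i * Z ^ j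

/-- the right hand side of the exact formula -/
noncomputable def Rhs : PowerSeries ℤ :=
  trm (-839565) 0 5 0 + trm 879532785500 980819824625 4 1 + trm 105833883906250 200396106712500 3 2 +
    trm 2651641024687500 9728146867968750 2 3 + trm 18422498623046875 165777890976562500 1 4 +
      trm 0 920919959228515625 0 5

theorem cl4_trm (a b : ℤ) (i j : ℕ) : cl4 (trm a b i j) =
    (C a * (S * (7 * t ^ 4 - t ^ 9)) + C b * (S * (3 * t ^ 4 + t ^ 9))) * (S * Ht) ^ i * (S * t ^ 5) ^ j := by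
  rw [trm, show (C a * Sg 1 + C b * Cc) * h ^ i * Z ^ j = (h ^ i * Z ^ j) * (C a * Sg 1 + C b * Cc) by ring,
    cl4_mul (cl_hZ i j), cl4_add, cl4_C, cl4_C, cl4_S1, cl4_Cc, h_eq, Z_eq]
  ring

theorem exact_cl4 : C 839272 * cl4 Dl + C 293 * cl4 (Sg 11) = cl4 Rhs := by
  rw [Rhs]
  simp only [cl4_add, cl4_trm]
  rw [cl4_Dl, cl4_S11, Ht]
  simp only [map_neg, map_zero,
    show (C 839272 : PowerSeries ℤ) = 839272 from rfl, show (C 293 : PowerSeries ℤ) = 293 from rfl,
    show (C 839565 : PowerSeries ℤ) = 839565 from rfl, show (C 879532785500 : PowerSeries ℤ) = 879532785500 from rfl,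
    show (C 980819824625 : PowerSeries ℤ) = 980819824625 from rfl,
    show (C 105833883906250 : PowerSeries ℤ) = 105833883906250 from rfl,
    show (C 200396106712500 : PowerSeries ℤ) = 200396106712500 from rfl,
    show (C 2651641024687500 : PowerSeries ℤ) = 2651641024687500 from rfl,
    show (C 9728146867968750 : PowerSeries ℤ) = 9728146867968750 from rfl,
    show (C 18422498623046875 : PowerSeries ℤ) = 18422498623046875 from rfl,
    show (C 165777890976562500 : PowerSeries ℤ) = 165777890976562500 from rfl,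
    show (C 920919959228515625 : PowerSeries ℤ) = 920919959228515625 from rfl]
  ring

/-- the exact formula -/
theorem exact_coeff {n : ℕ} (hn : n % 5 = 4) :
    839272 * coeff n Dl + 293 * coeff n (Sg 11) = coeff n Rhs := by
  have h1 := congrArg (coeff n) exact_cl4
  rw [map_add, coeff_C_mul, coeff_C_mul, cl4_coeff hn, cl4_coeff hn, cl4_coeff hn] at h1
  exact h1

end T5X
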