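import Pool.Agent.T5X.B4

/-!
# [T5X-B5] congruences modulo 5
-/

set_option autoImplicit false

open PowerSeries
open N19 (ex)
open NC11 (D Ev)
open E8X (Sg Dl F3Cl J tau)

namespace T5X

theorem lift_dvd (c : ℤ) (F : PowerSeries ℤ) (h : ∀ n, c ∣ coeff n F) : ∃ g, F = C c * g := by
  choose g hg using h
  refine ⟨mk g, ?_⟩
  ext n
  rw [coeff_C_mul, coeff_mk, hg n]

theorem frob5 (f : PowerSeries ℤ) : ∃ g, f ^ 5 = ex 5 f + 5 * g := by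
  haveI : Fact (Nat.Prime 5) := ⟨by norm_num⟩
  have h1 : PowerSeries.map (Int.castRingHom (ZMod 5)) (f ^ 5) =
      PowerSeries.map (Int.castRingHom (ZMod 5)) (ex 5 f) := by
    rw [E8X.F2a_expand (by norm_num), PowerSeries.map_expand, map_pow]
    have h2 := MvPowerSeries.map_frobenius_expand (σ := Unit) (R := ZMod 5) 5 (by norm_num)
      (f := PowerSeries.map (Int.castRingHom (ZMod 5)) f)
    rw [ZMod.frobenius_zmod, MvPowerSeries.map_id] at h2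
    exact h2.symm
  obtain ⟨g, hg⟩ := lift_dvd 5 (f ^ 5 - ex 5 f) (fun n => by
    have h3 := congrArg (coeff n) h1
    rw [PowerSeries.coeff_map, PowerSeries.coeff_map] at h3
    have h4 : ((coeff n (f ^ 5 - ex 5 f) : ℤ) : ZMod 5) = 0 := by
      rw [map_sub, Int.cast_sub, sub_eq_zero]
      exact h3
    exact (ZMod.intCast_zmod_eq_zero_iff_dvd _ _).1 h4)
  refine ⟨g, ?_⟩
  rw [show (5 : PowerSeries ℤ) = C 5 from rfl, ← hg]
  ring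

/-- `h ≡ 1` modulo `5` -/
theorem h_five : ∃ k, h = 1 + 5 * k := by
  obtain ⟨g, hg⟩ := frob5 (ex 5 E)
  refine ⟨g * iv (ex 25 E), ?_⟩
  rw [h, hg, E8X.ex_ex (by norm_num) (by norm_num), show 5 * 5 = 25 from rfl]
  linear_combination iv_mul (ex_zero (k := 25) E_zero)

/-- `5 ∣ 2 f` implies `5 ∣ f` -/
theorem half_five {f k : PowerSeries ℤ} (h : 2 * f = 5 * k) : f = 5 * (3 * k - f) := by
  linear_combination 3 * h

/-- `C ≡ ∑ n σ(n) X^n` modulo `5` -/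
theorem Cc_five : ∃ k, Cc = D (Sg 1) + 5 * k := by
  have h1 := DP
  have h2 : D P = (-24) * D (Sg 1) := by
    rw [P, D_sub, D_one, show (24 : PowerSeries ℤ) = C 24 from rfl, E8T.D_mul, E8T.D_C,
      show (C 24 : PowerSeries ℤ) = 24 from rfl]
    ring
  have hM := M_eq
  have hg := gr_eq
  have hP : P = M - 30 * (Sg 1 - ex 5 (Sg 1)) := by
    rw [P, M]
    ring
  have hG : gr = 1 - 5 * (5 * ex 5 (Sg 1) + le) := by
    rw [gr]
    ring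
  have hQ : Q = 1 + 240 * Sg 3 := rfl
  rw [h2, hP, hM, hQ] at h1
  obtain ⟨u, hu⟩ : ∃ u, u = Sg 1 - ex 5 (Sg 1) := ⟨_, rfl⟩
  obtain ⟨v, hv⟩ : ∃ v, v = 5 * ex 5 (Sg 1) + le := ⟨_, rfl⟩
  rw [← hu] at h1
  rw [← hv] at hG
  rw [hG] at hg
  refine ⟨3 * (22 * (s * r) * v - 25 * (s * r) ^ 2 + 2 * v - 5 * v ^ 2 + 48 * Sg 3 + 12 * u * (s * (1 + r ^ 2)) -
    180 * u ^ 2) - 173 * D (Sg 1) - 13 * (s * r), ?_⟩
  rw [Cc_eq]
  obtain ⟨w, hw⟩ : ∃ w, w = D (Sg 1) := ⟨_, rfl⟩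
  rw [← hw] at h1 ⊢
  have e1 : (1 - 5 * v) ^ 2 = (s * (1 - 11 * r - r ^ 2)) ^ 2 := by rw [hg]
  linear_combination (-3) * h1 + 3 * e1 + 66 * (s * r) * hg

/-- `Z ≡ ∑ n σ(n) X^{5n}` modulo `5` -/
theorem Z_five : ∃ k, Z = ex 5 (D (Sg 1)) + 5 * k := by
  obtain ⟨k, hk⟩ := Cc_five
  refine ⟨ex 5 k, ?_⟩
  rw [Z, hk, E8X.ex_add, show (5 : PowerSeries ℤ) = C 5 from rfl, E8X.ex_mul (by norm_num),
    E8X.ex_ofNat (by norm_num)]

theorem cl4_Cc_S1 : cl4 Cc = - cl4 (Sg 1) + 10 * (S * t ^ 4) := by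
  rw [cl4_Cc, cl4_S1]
  ring

/-- `σ₅ ≡ σ₁` modulo `5` -/
theorem sigma51 (n : ℕ) : (5 : ℤ) ∣ (ArithmeticFunction.sigma 5 n : ℤ) - (ArithmeticFunction.sigma 1 n : ℤ) := by
  rw [ArithmeticFunction.sigma_apply, ArithmeticFunction.sigma_apply]
  push_cast
  rw [← Finset.sum_sub_distrib]
  refine Finset.dvd_sum fun d _ => ?_
  have h : ∀ x : ZMod 5, x ^ 5 - x ^ 1 = 0 := by decide
  have h1 := h ((d : ℤ) : ZMod 5)
  have h2 : ((((d : ℤ) ^ 5 - (d : ℤ) ^ 1 : ℤ)) : ZMod 5) = 0 := by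
    push_cast
    push_cast at h1
    exact h1
  exact (ZMod.intCast_zmod_eq_zero_iff_dvd _ _).1 h2

end T5X
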