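import Pool.Agent.T5X.B5

/-!
# [T5X-B6] the congruence modulo 625
-/

set_option autoImplicit false

open PowerSeries
open N19 (ex)
open NC11 (D Ev)
open E8X (Sg Dl F3Cl J tau)

namespace T5X

/-- the cofactor of `625` -/
noncomputable def W0 : PowerSeries ℤ := S ^ 6 * ((-711621) * t ^ 4 + (-5299482548) * t ^ 9 + (-543694094412) * t ^ 14 +
  (-5867977038930) * t ^ 19 + (-9163405205197) * t ^ 24 + (-1479375892671) * t ^ 29 + (-6993218924271) * t ^ 34 +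
  (8734819484511) * t ^ 39 + (-1794023836875) * t ^ 44 + (46542018876) * t ^ 49 + (-61561428) * t ^ 54)

theorem six25 : cl4 Dl - 106 * cl4 (Sg 11) + 50 * cl4 (Sg 5) * h ^ 3 - 155 * cl4 (Sg 1) * h ^ 5 +
    125 * cl4 Cc * Z * h ^ 4 = 625 * W0 := by
  rw [cl4_Dl, cl4_S11, cl4_S5, cl4_S1, cl4_Cc, h_eq, Z_eq, Ht, W0]
  ring

theorem S5_S1 : ∃ k, cl4 (Sg 5) = cl4 (Sg 1) + 5 * k := by
  obtain ⟨k, hk⟩ := lift_dvd 5 (cl4 (Sg 5) - cl4 (Sg 1)) (fun n => by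
    rw [← cl4_sub, cl4, coeff_mk]
    split_ifs with h
    · rw [map_sub, Sg, Sg, coeff_mk, coeff_mk]
      exact sigma51 n
    · exact dvd_zero _)
  refine ⟨k, ?_⟩
  rw [show (5 : PowerSeries ℤ) = C 5 from rfl, ← hk]
  ring

theorem cong625 : ∃ k, cl4 Dl = 106 * cl4 (Sg 11) - 50 * cl4 (Sg 5) + 155 * cl4 (Sg 1) +
    125 * cl4 (Sg 1) * ex 5 (D (Sg 1)) + 625 * k := by
  obtain ⟨κ, hκ⟩ := h_five
  obtain ⟨u, hu⟩ := S5_S1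
  obtain ⟨v, hv⟩ := Z_five
  have hc := cl4_Cc_S1
  have hid := six25
  obtain ⟨y, hy⟩ : ∃ y, y = ex 5 (D (Sg 1)) := ⟨_, rfl⟩
  obtain ⟨b, hb⟩ : ∃ b, b = cl4 (Sg 1) := ⟨_, rfl⟩
  obtain ⟨w, hw⟩ : ∃ w, w = S * t ^ 4 := ⟨_, rfl⟩
  rw [← hy] at hv
  rw [← hb, ← hw] at hc
  rw [← hb] at hu
  rw [← hb, hκ, hv, hc, hu] at hid
  rw [← hb, ← hy, hu]
  refine ⟨W0 - (b + 5 * u) * (κ + 6 * κ ^ 2 + 10 * κ ^ 3) +
    b * (6 * κ + 62 * κ ^ 2 + 310 * κ ^ 3 + 775 * κ ^ 4 + 775 * κ ^ 5) - κ * u -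
    (-b + 10 * w) * (y + 5 * v) * (4 * κ + 30 * κ ^ 2 + 100 * κ ^ 3 + 125 * κ ^ 4) + b * v - 2 * w * (y + 5 * v), ?_⟩
  linear_combination hid

end T5X
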