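import Pool.Agent.T5X.B6

/-!
# [T5X-B7] Ramanujan's function modulo 5 and modulo 625
-/

set_option autoImplicit false

open PowerSeries
open N19 (ex)
open NC11 (D Ev)
open E8X (Sg Dl F3Cl J tau)

namespace T5X

/-- `∑_{i + 5 j = n} j σ(i) σ(j)` -/
def Wn (n : ℕ) : ℕ := ∑ j ∈ Finset.range (n / 5 + 1),
  j * ArithmeticFunction.sigma 1 j * ArithmeticFunction.sigma 1 (n - 5 * j)

theorem coeff_conv (f g : PowerSeries ℤ) (n : ℕ) :
    coeff n (f * ex 5 g) = ∑ j ∈ Finset.range (n / 5 + 1), coeff j g * coeff (n - 5 * j) f := by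
  rw [mul_comm, coeff_mul, Finset.Nat.sum_antidiagonal_eq_sum_range_succ_mk]
  have h : ∀ k ∈ Finset.range n.succ, coeff k (ex 5 g) * coeff (n - k) f =
      if 5 ∣ k then coeff (k / 5) g * coeff (n - k) f else 0 := by
    intro k _
    rw [E8X.f3_coeff_ex]
    split_ifs
    · rfl
    · rw [zero_mul]
  rw [Finset.sum_congr rfl h, ← Finset.sum_filter]
  refine Finset.sum_nbij' (fun k => k / 5) (fun j => 5 * j) ?_ ?_ ?_ ?_ ?_
  · intro k hk
    rw [Finset.mem_filter, Finset.mem_range] at hk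
    rw [Finset.mem_range]
    omega
  · intro j hj
    rw [Finset.mem_range] at hj
    rw [Finset.mem_filter, Finset.mem_range]
    omega
  · intro k hk
    rw [Finset.mem_filter, Finset.mem_range] at hk
    omega
  · intro j hj
    omega
  · intro k hk
    rw [Finset.mem_filter, Finset.mem_range] at hk
    have e : 5 * (k / 5) = k := by omega
    rw [e]

theorem coeff_conv_D (n : ℕ) : coeff n (Sg 1 * ex 5 (D (Sg 1))) = (Wn n : ℤ) := by
  rw [coeff_conv, Wn]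
  push_cast
  refine Finset.sum_congr rfl fun j _ => ?_
  rw [D, Sg, coeff_mk, coeff_mk, coeff_mk]

/-- `τ(n)` modulo `625` for `n ≡ 4` modulo `5` -/
theorem tau_625 {n : ℕ} (hn : n % 5 = 4) : (625 : ℤ) ∣ tau n - (106 * (ArithmeticFunction.sigma 11 n : ℤ) -
    50 * (ArithmeticFunction.sigma 5 n : ℤ) + 155 * (ArithmeticFunction.sigma 1 n : ℤ) + 125 * (Wn n : ℤ)) := by
  obtain ⟨k, hk⟩ := cong625
  have h := congrArg (coeff n) hk
  rw [show 125 * cl4 (Sg 1) * ex 5 (D (Sg 1)) = 125 * (ex 5 (D (Sg 1)) * cl4 (Sg 1)) by ring,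
    ← cl4_mul (cl_ex5 (D (Sg 1))), mul_comm (ex 5 (D (Sg 1))) (Sg 1),
    show (106 : PowerSeries ℤ) = C 106 from rfl, show (50 : PowerSeries ℤ) = C 50 from rfl,
    show (155 : PowerSeries ℤ) = C 155 from rfl, show (125 : PowerSeries ℤ) = C 125 from rfl,
    show (625 : PowerSeries ℤ) = C 625 from rfl, map_add, map_add, map_add, map_sub, coeff_C_mul, coeff_C_mul,
    coeff_C_mul, coeff_C_mul, coeff_C_mul, cl4_coeff hn, cl4_coeff hn, cl4_coeff hn, cl4_coeff hn, cl4_coeff hn,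
    coeff_conv_D, Sg, Sg, Sg, coeff_mk, coeff_mk, coeff_mk] at h
  refine ⟨coeff n k, ?_⟩
  rw [tau, h]
  ring

/-- `τ(n) ≡ n σ(n)` modulo `5` -/
theorem tau_5 (n : ℕ) : (5 : ℤ) ∣ tau n - n * (ArithmeticFunction.sigma 1 n : ℤ) := by
  obtain ⟨k, hk⟩ := Cc_five
  have hG : gr = 1 + 5 * (-(5 * ex 5 (Sg 1) + le)) := by
    rw [gr]
    ring
  have h1 : Dl = gr ^ 5 * Cc := by
    rw [Dl_sr, gr_eq, Cc_eq]
    ring
  obtain ⟨v, hv⟩ : ∃ v, v = -(5 * ex 5 (Sg 1) + le) := ⟨_, rfl⟩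
  rw [← hv] at hG
  rw [hG, hk] at h1
  have h2 : Dl = D (Sg 1) + C 5 * (k + (5 * v + 50 * v ^ 2 + 250 * v ^ 3 + 625 * v ^ 4 + 625 * v ^ 5) *
      (D (Sg 1) + 5 * k)) := by
    rw [h1, show (C 5 : PowerSeries ℤ) = 5 from rfl]
    ring
  have h3 : coeff n (D (Sg 1)) = n * (ArithmeticFunction.sigma 1 n : ℤ) := by
    rw [D, Sg, coeff_mk, coeff_mk]
  rw [tau, h2, map_add, coeff_C_mul, h3]
  refine ⟨coeff n (k + (5 * v + 50 * v ^ 2 + 250 * v ^ 3 + 625 * v ^ 4 + 625 * v ^ 5) *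
      (D (Sg 1) + 5 * k)), ?_⟩
  ring

/-- the exact formula at `n ≡ 4` modulo `5` -/
theorem tau_exact {n : ℕ} (hn : n % 5 = 4) :
    839272 * tau n + 293 * (ArithmeticFunction.sigma 11 n : ℤ) = coeff n Rhs := by
  have h := exact_coeff hn
  rw [show coeff n (Sg 11) = (ArithmeticFunction.sigma 11 n : ℤ) by rw [Sg, coeff_mk]] at h
  exact h

theorem b7_arith {a W k : ℤ} (h : 0 - (106 * (1 + (5 * a - 1) ^ 11) - 50 * (1 + (5 * a - 1) ^ 5) +
    155 * (1 + (5 * a - 1) ^ 1) + 125 * W) = 625 * k) : ∃ z : ℤ, a = 25 * z ∧ (5 : ℤ) ∣ W + z := by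
  have h1 : (25 : ℤ) ∣ 1071 * a := by
    refine ⟨-(5 * k) - W - (-1066 * a ^ 2 + 16990 * a ^ 3 - 173650 * a ^ 4 + 1223050 * a ^ 5 - 6121500 * a ^ 6 +
      21862500 * a ^ 7 - 54656250 * a ^ 8 + 91093750 * a ^ 9 - 91093750 * a ^ 10 + 41406250 * a ^ 11), ?_⟩
    have h2 : (5 : ℤ) * (1071 * a) = 5 * (25 * (-(5 * k) - W - (-1066 * a ^ 2 + 16990 * a ^ 3 - 173650 * a ^ 4 +
      1223050 * a ^ 5 - 6121500 * a ^ 6 +
      21862500 * a ^ 7 - 54656250 * a ^ 8 + 91093750 * a ^ 9 - 91093750 * a ^ 10 + 41406250 * a ^ 11))) := by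
      linear_combination (-1 : ℤ) * h
    linarith
  have h3 : (25 : ℤ) ∣ a := (show IsCoprime (25 : ℤ) 1071 by norm_num).dvd_of_dvd_mul_left h1
  obtain ⟨z, rfl⟩ := h3
  refine ⟨z, rfl, ?_⟩
  have h4 : (625 : ℤ) * (k + 214 * z - 133250 * z ^ 2 + 53093750 * z ^ 3 - 13566406250 * z ^ 4 +
      2388769531250 * z ^ 5 - 298901367187500 * z ^ 6 + 26687622070312500 * z ^ 7 - 1667976379394531250 * z ^ 8 +
      69499015808105468750 * z ^ 9 - 1737475395202636718750 * z ^ 10 + 19744038581848144531250 * z ^ 11) =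
      - (125 * (W + z)) := by
    linear_combination (-1 : ℤ) * h
  exact ⟨-(k + 214 * z - 133250 * z ^ 2 + 53093750 * z ^ 3 - 13566406250 * z ^ 4 +
      2388769531250 * z ^ 5 - 298901367187500 * z ^ 6 + 26687622070312500 * z ^ 7 - 1667976379394531250 * z ^ 8 +
      69499015808105468750 * z ^ 9 - 1737475395202636718750 * z ^ 10 + 19744038581848144531250 * z ^ 11), by linarith⟩

theorem prime_cond5 {p : ℕ} (hp : p.Prime) (h : tau p = 0) :
    p % 5 = 4 ∧ ∃ z : ℤ, (p : ℤ) + 1 = 125 * z ∧ (5 : ℤ) ∣ (Wn p : ℤ) + z := by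
  have h5 : p % 5 ≠ 0 := by
    intro h0
    have h1 : p = 5 := ((Nat.prime_dvd_prime_iff_eq Nat.prime_five hp).1 (Nat.dvd_of_mod_eq_zero h0)).symm
    subst h1
    have h2 := E8X.tau_mod (n := 5) (by norm_num)
    rw [h, E8X.g2_sigma hp 11] at h2
    norm_num at h2
  have h4 : p % 5 = 4 := by
    have h1 := tau_5 p
    rw [h, E8X.g2_sigma hp 1, zero_sub, dvd_neg] at h1
    have h2 : (5 : ℤ) ∣ (p : ℤ) ∨ (5 : ℤ) ∣ 1 + (p : ℤ) ^ 1 :=
      (Prime.dvd_mul (by exact_mod_cast Nat.prime_iff_prime_int.1 Nat.prime_five)).1 h1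
    rw [pow_one] at h2
    omega
  refine ⟨h4, ?_⟩
  obtain ⟨k, hk⟩ := tau_625 h4
  obtain ⟨a, ha⟩ : ∃ a : ℤ, (p : ℤ) = 5 * a - 1 := ⟨((p : ℤ) + 1) / 5, by omega⟩
  rw [h, E8X.g2_sigma hp 11, E8X.g2_sigma hp 5, E8X.g2_sigma hp 1, ha] at hk
  obtain ⟨z, hz, hw⟩ := b7_arith hk
  refine ⟨z, by rw [ha, hz]; ring, hw⟩

end T5X
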