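import Pool.Agent.E8X.G3
import Pool.Agent.E8T.X1
import Mathlib.Combinatorics.Enumerative.Pentagonal.PowerSeries

/-!
# [T5X] a 5-adic formula for Ramanujan's function: definitions

`E = ∏ (1 - X^n)`, `E₀` = its part with exponents divisible by `5`, `E = E₀ (1 - t - t²)`.
-/

set_option autoImplicit false

open PowerSeries
open N19 (ex)
open NC11 (D)
open E8X (Sg)

namespace T5X

/-- `E = ∏ (1 - X^n)` -/
noncomputable def E : PowerSeries ℤ := pentagonalSeries ℤ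

/-- the inverse of a power series with constant coefficient `1` -/
noncomputable def iv (f : PowerSeries ℤ) : PowerSeries ℤ := invOfUnit f 1

/-- `E₀ = ε(X⁵)` is the part of `E` with exponents divisible by `5` -/
noncomputable def eps : PowerSeries ℤ := mk fun n => coeff (5 * n) E

/-- `s = ε⁵ / E` (weight 2) -/
noncomputable def s : PowerSeries ℤ := eps ^ 5 * iv E

/-- `r = X E(X⁵)⁵ / ε⁵ = R(q)⁵`, the fifth power of the Rogers-Ramanujan continued fraction -/
noncomputable def r : PowerSeries ℤ := X * ex 5 E ^ 5 * iv eps ^ 5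

/-- `t = X E(X²⁵) / ε(X⁵) = R(q⁵)` -/
noncomputable def t : PowerSeries ℤ := X * ex 25 E * iv (ex 5 eps)

/-- `S = s(X⁵)` -/
noncomputable def S : PowerSeries ℤ := ex 5 s

/-- `M = 1 + 6 ∑ (σ(n) - 5 σ(n/5)) X^n` -/
noncomputable def M : PowerSeries ℤ := 1 + 6 * Sg 1 - 30 * ex 5 (Sg 1)

/-- `E₂` -/
noncomputable def P : PowerSeries ℤ := 1 - 24 * Sg 1

/-- `E₄` -/
noncomputable def Q : PowerSeries ℤ := 1 + 240 * Sg 3

/-- `E₆` -/
noncomputable def R : PowerSeries ℤ := 1 - 504 * Sg 5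

/-- `A(t)` -/
noncomputable def At : PowerSeries ℤ := 1 + 3 * t + 4 * t ^ 2 + 2 * t ^ 3 + t ^ 4

/-- `B(t)` -/
noncomputable def Bt : PowerSeries ℤ := t - 2 * t ^ 2 + 4 * t ^ 3 - 3 * t ^ 4 + t ^ 5

/-- `C = X E(X⁵)⁵ / E`, the generating function of the `5`-cores -/
noncomputable def Cc : PowerSeries ℤ := X * ex 5 E ^ 5 * iv E

/-- `h = E(X⁵)⁵ / E(X²⁵)` -/
noncomputable def h : PowerSeries ℤ := ex 5 E ^ 5 * iv (ex 25 E)

/-- `Z = C(X⁵) = X⁵ E(X²⁵)⁵ / E(X⁵)` -/
noncomputable def Z : PowerSeries ℤ := ex 5 Cc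

end T5X
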